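import Pool.Agent.H95.GG.Stm
import Pool.Agent.H50.GW.LDU
import Pool.Agent.H50.GW.MGI

/-! GG-CHE (helper94) -/

set_option autoImplicit false

open MeasureTheory Filter ProbabilityTheory
open scoped Topology ENNReal

namespace Pool.Agent.H95.GG.T.CHE

open Pool.Agent.H50.GW

theorem main : S_CHE := by
  classical
  intro Ω _ P _ A hA hind S E D τ hτ hD hE
  have hind' : iIndepSet (fun m : S => A m) P := by
    have := iIndepSet.precomp (g := fun m : S => (m : ℕ)) Subtype.val_injective hind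
    exact this
  have h1 := (ldu mgi Ω P inferInstance S A hA hind' τ ((1 + τ) * E + D) (by linarith)).1 hτ
  have hS0 : 0 ≤ ∑ s ∈ S, P.real (A s) := Finset.sum_nonneg fun _ _ => measureReal_nonneg
  have hE0 : 0 ≤ E := hS0.trans hE
  have hset : {ω | (1 + τ) * E + D ≤ ((S.filter (fun s => ω ∈ A s)).card : ℝ)} =
      {ω | (1 + τ) * E + D ≤ (NN S A ω : ℝ)} := by
    ext ω
    simp only [Set.mem_setOf_eq, NN]
  rw [hset]
  have h2 : P.real {ω | (1 + τ) * E + D ≤ (NN S A ω : ℝ)} ≤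
      Real.exp (-(((1 + τ) * E + D) * Real.log (1 + τ)) + τ * ∑ m ∈ S, (P (A m)).toReal) := by
    have := ENNReal.toReal_mono ENNReal.ofReal_ne_top h1
    rwa [ENNReal.toReal_ofReal (Real.exp_nonneg _)] at this
  refine h2.trans (Real.exp_le_exp.2 ?_)
  have h3 : ∑ m ∈ S, (P (A m)).toReal ≤ E := hE
  have h4 : τ / (1 + τ) ≤ Real.log (1 + τ) := by
    have := Real.one_sub_inv_le_log_of_pos (by linarith : 0 < 1 + τ)
    have e : 1 - (1 + τ)⁻¹ = τ / (1 + τ) := by field_simp; ring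
    rwa [e] at this
  have h5 : τ ≤ (1 + τ) * Real.log (1 + τ) := by
    rw [div_le_iff₀ (by linarith)] at h4
    linarith
  have h6 : τ * ∑ m ∈ S, (P (A m)).toReal ≤ τ * E := mul_le_mul_of_nonneg_left h3 hτ.le
  have h7 : τ * E ≤ (1 + τ) * Real.log (1 + τ) * E := mul_le_mul_of_nonneg_right h5 hE0
  nlinarith

end Pool.Agent.H95.GG.T.CHE
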