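import Pool.Agent.H95.GG.Stm

set_option autoImplicit false
set_option linter.unusedSectionVars false

/-! # GG-FIN (helper81) -/

namespace Pool.Agent.H95.GG.T.FIN

open MeasureTheory Filter ProbabilityTheory
open scoped Topology ENNReal
open Pool.Agent.H50.BF (MM)
open Pool.Agent.H50.GW (Rou)

lemma bc_real {Ω : Type} {m0 : MeasurableSpace Ω} {μ : Measure Ω} [IsProbabilityMeasure μ]
    {s : ℕ → Set Ω} {c : ℕ → ℝ} (hc : Summable c) (h : ∀ᶠ n in atTop, μ.real (s n) ≤ c n) :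
    ∀ᵐ ω ∂μ, ∀ᶠ n in atTop, ω ∉ s n := by
  obtain ⟨N, hN⟩ := eventually_atTop.1 h
  have h1 : ∑' n, μ (s (n + N)) ≠ ∞ := by
    have h2 : ∀ n, μ (s (n + N)) ≤ ENNReal.ofReal (c (n + N)) := by
      intro n
      rw [← ofReal_measureReal (measure_ne_top μ (s (n + N)))]
      exact ENNReal.ofReal_le_ofReal (hN _ (by omega))
    have h3 : Summable (fun n => c (n + N)) := (summable_nat_add_iff N).2 hc
    have h4 : ∀ n, 0 ≤ c (n + N) := fun n => measureReal_nonneg.trans (hN _ (by omega))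
    refine ne_top_of_le_ne_top ?_ (ENNReal.tsum_le_tsum h2)
    rw [← ENNReal.ofReal_tsum_of_nonneg h4 h3]
    exact ENNReal.ofReal_ne_top
  filter_upwards [ae_eventually_notMem h1] with ω hω
  obtain ⟨M, hM⟩ := eventually_atTop.1 hω
  refine eventually_atTop.2 ⟨M + N, fun n hn => ?_⟩
  have := hM (n - N) (by omega)
  rwa [Nat.sub_add_cancel (by omega)] at this

lemma MM_nonneg (v : ℕ) : 0 ≤ MM v := by
  refine Finset.prod_nonneg fun p hp => ?_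
  have h1 : 1 ≤ p := (Finset.mem_Icc.1 (Finset.mem_filter.1 hp).1).1
  have h2 : (1 : ℝ) ≤ p := by exact_mod_cast h1
  exact inv_nonneg.2 (sub_nonneg.2 (inv_le_one_of_one_le₀ h2))

lemma TP_nonneg (w : ℕ) : 0 ≤ TP w := by
  refine Finset.prod_nonneg fun p hp => ?_
  have h1 : 3 ≤ p := (Finset.mem_Icc.1 (Finset.mem_filter.1 hp).1).1
  have h2 : (3 : ℝ) ≤ p := by exact_mod_cast h1
  rw [sub_nonneg, div_le_one (by linarith)]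
  linarith

lemma exp_two_log {Y : ℕ} (hY : 1 ≤ Y) : Real.exp (-(2 * Real.log Y)) = 1 / (Y : ℝ) ^ 2 := by
  have h1 : (0 : ℝ) < Y := by exact_mod_cast hY
  rw [Real.exp_neg, two_mul, Real.exp_add, Real.exp_log h1, one_div, sq]

/-- the asymptotic facts -/
lemma asy {ε : ℝ} (hε : 0 < ε) : ∀ᶠ Y : ℕ in atTop, 3 ≤ Y ∧ 2 ≤ (Y : ℝ) ^ (ε / 8) ∧
    2 * Real.log Y ≤ (Y : ℝ) ^ (ε / 8) - 1 := by
  have h1 : ∀ᶠ Y : ℕ in atTop, (2 : ℝ) ≤ (Y : ℝ) ^ (ε / 8) :=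
    ((tendsto_rpow_atTop (by positivity)).comp tendsto_natCast_atTop_atTop).eventually_ge_atTop 2
  have h2 := (isLittleO_log_rpow_atTop (show 0 < ε / 8 by positivity)).def
    (show (0 : ℝ) < 1 / 4 by norm_num)
  have h3 := (tendsto_natCast_atTop_atTop (R := ℝ)).eventually h2
  filter_upwards [h1, h3, eventually_ge_atTop 3] with Y k1 k2 k3
  refine ⟨k3, k1, ?_⟩
  have h4 : (0 : ℝ) ≤ (Y : ℝ) ^ (ε / 8) := by positivity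
  have h5 := (le_abs_self (Real.log Y)).trans k2
  rw [Real.norm_eq_abs, abs_of_nonneg h4] at h5
  linarith

/-- the bound of the first probability -/
lemma bound1 {a ε X : ℝ} {Y : ℕ} (hY : 3 ≤ Y) (hε : 0 < ε) (h2 : 0 ≤ a + ε / 8)
    (h3 : 2 * Real.log Y ≤ (Y : ℝ) ^ (ε / 8) - 1) (hX : X ≤ (a + ε / 8) * Real.log Y) :
    Real.exp (-((⌊(Y : ℝ) ^ (a + ε / 4)⌋₊ : ℕ) * Real.exp (-X))) ≤ 1 / (Y : ℝ) ^ 2 := by
  have hY1 : (1 : ℝ) ≤ Y := by exact_mod_cast (by omega : 1 ≤ Y)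
  have hY0 : (0 : ℝ) < Y := by linarith
  rw [← exp_two_log (by omega), Real.exp_le_exp, neg_le_neg_iff]
  have hg : (Y : ℝ) ^ (-(a + ε / 8)) = Real.exp (-((a + ε / 8) * Real.log Y)) := by
    rw [Real.rpow_def_of_pos hY0]; congr 1; ring
  have h4 : (Y : ℝ) ^ (-(a + ε / 8)) ≤ Real.exp (-X) := by
    rw [hg, Real.exp_le_exp]; linarith
  have h5 : (Y : ℝ) ^ (a + ε / 4) - 1 ≤ (⌊(Y : ℝ) ^ (a + ε / 4)⌋₊ : ℝ) :=
    (Nat.sub_one_lt_floor _).le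
  have h6 : (Y : ℝ) ^ (-(a + ε / 8)) ≤ 1 := Real.rpow_le_one_of_one_le_of_nonpos hY1 (by linarith)
  have h7 : 0 < (Y : ℝ) ^ (-(a + ε / 8)) := by positivity
  have h8 : (Y : ℝ) ^ (a + ε / 4) * (Y : ℝ) ^ (-(a + ε / 8)) = (Y : ℝ) ^ (ε / 8) := by
    rw [← Real.rpow_add hY0]; congr 1; ring
  calc 2 * Real.log Y ≤ (Y : ℝ) ^ (ε / 8) - 1 := h3
    _ ≤ ((Y : ℝ) ^ (a + ε / 4) - 1) * (Y : ℝ) ^ (-(a + ε / 8)) := by
        rw [sub_mul, h8]; linarith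
    _ ≤ (⌊(Y : ℝ) ^ (a + ε / 4)⌋₊ : ℝ) * (Y : ℝ) ^ (-(a + ε / 8)) := by gcongr
    _ ≤ (⌊(Y : ℝ) ^ (a + ε / 4)⌋₊ : ℝ) * Real.exp (-X) := by gcongr

/-- there is room for `J` candidates -/
lemma room {a ε : ℝ} {Y v2 y : ℕ} (hY : 3 ≤ Y) (hε : 0 < ε) (h2 : 0 ≤ a + ε / 8)
    (h3 : 2 ≤ (Y : ℝ) ^ (ε / 8)) (h4 : (4 : ℝ) ^ v2 * (y + 1) ≤ (Y : ℝ) ^ (ε / 8)) :
    ⌊(Y : ℝ) ^ (a + ε / 4)⌋₊ * (primorial v2 * (y + 1)) ≤ ⌊(Y : ℝ) ^ (a + ε / 2)⌋₊ := by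
  have hY1 : (1 : ℝ) ≤ Y := by exact_mod_cast (by omega : 1 ≤ Y)
  have hY0 : (0 : ℝ) < Y := by linarith
  have h5 : (primorial v2 : ℝ) ≤ (4 : ℝ) ^ v2 := by exact_mod_cast primorial_le_four_pow v2
  have h6 : (⌊(Y : ℝ) ^ (a + ε / 4)⌋₊ : ℝ) ≤ (Y : ℝ) ^ (a + ε / 4) := Nat.floor_le (by positivity)
  have h7 : (Y : ℝ) ^ (a + ε / 4) * (Y : ℝ) ^ (ε / 8) = (Y : ℝ) ^ (a + 3 * ε / 8) := by
    rw [← Real.rpow_add hY0]; congr 1; ring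
  have h8 : (Y : ℝ) ^ (a + 3 * ε / 8) * (Y : ℝ) ^ (ε / 8) = (Y : ℝ) ^ (a + ε / 2) := by
    rw [← Real.rpow_add hY0]; congr 1; ring
  have h9 : 1 ≤ (Y : ℝ) ^ (a + 3 * ε / 8) := Real.one_le_rpow hY1 (by linarith)
  have h10 := Nat.sub_one_lt_floor ((Y : ℝ) ^ (a + ε / 2))
  have h11 : ((⌊(Y : ℝ) ^ (a + ε / 4)⌋₊ * (primorial v2 * (y + 1)) : ℕ) : ℝ) ≤
      (Y : ℝ) ^ (a + 3 * ε / 8) := by
    push_cast
    calc (⌊(Y : ℝ) ^ (a + ε / 4)⌋₊ : ℝ) * ((primorial v2 : ℝ) * (y + 1)) ≤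
        (Y : ℝ) ^ (a + ε / 4) * ((4 : ℝ) ^ v2 * (y + 1)) := by gcongr
      _ ≤ (Y : ℝ) ^ (a + ε / 4) * (Y : ℝ) ^ (ε / 8) := by gcongr
      _ = _ := h7
  have h12 : (Y : ℝ) ^ (a + 3 * ε / 8) ≤ (Y : ℝ) ^ (a + ε / 2) - 1 := by
    rw [← h8]
    nlinarith
  have h13 : ((⌊(Y : ℝ) ^ (a + ε / 4)⌋₊ * (primorial v2 * (y + 1)) : ℕ) : ℝ) <
      (⌊(Y : ℝ) ^ (a + ε / 2)⌋₊ : ℝ) := by linarith
  exact_mod_cast h13.le

/-- the range of the small summand -/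
lemma range {κ : ℝ} (hκ : 0 < κ) {Y N s : ℕ} (hY : 3 ≤ Y) (h1 : Y < N) (h2 : N ≤ 2 * Y)
    (hs : (s : ℝ) ≤ κ * (Real.log N ^ 2 * Real.log (Real.log N))) : s ≤ yy κ Y := by
  unfold yy
  refine Nat.le_floor (hs.trans ?_)
  have hN3 : (3 : ℝ) ≤ N := by exact_mod_cast (by omega : 3 ≤ N)
  have h3 : (1 : ℝ) < Real.log N := by
    rw [Real.lt_log_iff_exp_lt (by linarith)]
    exact Real.exp_one_lt_d9.trans (by linarith)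
  have h4 : Real.log N ≤ Real.log (2 * (Y : ℝ)) :=
    Real.log_le_log (by linarith) (by exact_mod_cast h2)
  have h5 : Real.log (Real.log N) ≤ Real.log (Real.log (2 * (Y : ℝ))) :=
    Real.log_le_log (by linarith) h4
  have h6 : 0 ≤ Real.log (Real.log N) := Real.log_nonneg h3.le
  gcongr

theorem main (hSUP : S_SUP) (hCHE : S_CHE) (hNUM : S_NUM) (hSID : S_SID) : S_FIN := by
  classical
  intro Ω _ P A z θ hG hθ0 hθ1 u κ ε hu hκ hε h1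
  have hP := hG.prob
  obtain ⟨a, ha⟩ : ∃ a : ℝ, a = κ * cc u := ⟨_, rfl⟩
  rw [← ha] at h1 ⊢
  have hε8 : 0 < ε / 8 := by positivity
  obtain ⟨c1, hc1, hc1', hN⟩ := hNUM Ω P A z θ hG hθ0 hθ1 u κ (ε / 8) hu hκ hε8
  obtain ⟨c2, hc2, hc2', hS⟩ := hSID Ω P A z θ hG hθ0 hθ1 u κ (ε / 8) hu hκ hε8
  obtain ⟨c, hc⟩ : ∃ c : ℝ, c = min c1 c2 := ⟨_, rfl⟩
  have hc0 : 0 < c := by rw [hc]; exact lt_min hc1 hc2
  have hcc1 : c ≤ c1 := by rw [hc]; exact min_le_left _ _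
  have hcc2 : c ≤ c2 := by rw [hc]; exact min_le_right _ _
  have hN' := hN c c c hc0 hcc1 hc0 hcc1 hc0 hcc1
  have hS' := hS c c c hc0 hcc2 hc0 hcc2 hc0 hcc2
  -- the quantities
  let y : ℕ → ℕ := yy κ
  let y1 : ℕ → ℕ := fun Y => ⌊Real.log Y ^ (2 - c)⌋₊
  let v : ℕ → ℕ := fun Y => ⌊(yy κ Y : ℝ) ^ (1 / u)⌋₊
  let v2 : ℕ → ℕ := fun Y => ⌊Real.log Y ^ (θ * (1 - c))⌋₊
  let q : ℕ → ℝ := fun Y => (1 + c) ^ 2 * (MM (z (2 * Y)) / Real.log Y)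
  let E : ℕ → ℝ := fun Y => (1 + c) * (ru (v Y) (y Y)) * (MM (z (y Y)) / Real.log (y1 Y))
  let D : ℕ → ℝ := fun Y => (yy κ Y : ℝ) ^ (3 / 4 : ℝ)
  let B : ℕ → ℝ := fun Y => (1 + c) * E Y + D Y
  let Z : ℕ → ℕ := fun Y => ⌊(Y : ℝ) ^ (a + ε / 2)⌋₊
  let J : ℕ → ℕ := fun Y => ⌊(Y : ℝ) ^ (a + ε / 4)⌋₊
  let X : ℕ → ℝ := fun Y => (1 + 2 * q Y) *
    ((y1 Y + B Y * TP (z (y1 Y)) * (MM (v Y) / MM (v2 Y))) * q Y)
  have hE0 : ∀ Y, 0 ≤ E Y := fun Y => by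
    have e1 := MM_nonneg (z (y Y))
    have e2 := Real.log_natCast_nonneg (y1 Y)
    positivity
  have hD0 : ∀ Y, 0 ≤ D Y := fun Y => by positivity
  have hB0 : ∀ Y, 0 ≤ B Y := fun Y => by
    have := hE0 Y
    have := hD0 Y
    positivity
  have hq0 : ∀ Y, 0 ≤ q Y := fun Y => by
    have e1 := MM_nonneg (z (2 * Y))
    have e2 := Real.log_natCast_nonneg Y
    positivity
  have hX0 : ∀ Y, 0 ≤ X Y := fun Y => by
    have e1 := hq0 Y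
    have e2 := hB0 Y
    have e3 := TP_nonneg (z (y1 Y))
    have e4 := MM_nonneg (v Y)
    have e5 := MM_nonneg (v2 Y)
    positivity
  have hXN : ∀ᶠ Y : ℕ in atTop, X Y ≤ (a + ε / 8) * Real.log Y := by
    filter_upwards [hN'] with Y hY
    rw [ha]
    exact hY
  -- `a + ε / 8 ≥ 0`
  have ha0 : 0 ≤ a + ε / 8 := by
    obtain ⟨Y, k1, k2⟩ := (hXN.and (eventually_ge_atTop 3)).exists
    have k3 : 0 < Real.log Y := Real.log_pos (by exact_mod_cast (by omega : 1 < Y))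
    have k4 := (hX0 Y).trans k1
    by_contra hcon
    push Not at hcon
    nlinarith
  let E1 : ℕ → Set Ω := fun Y =>
    {ω | (((Finset.Ioc (y1 Y) (y Y)).filter (fun s => Rou (v Y) s ∧ ω ∈ A s)).card : ℝ) ≤ B Y ∧
      ∀ N : ℕ, Y < N → N ≤ Y + Z Y → Even N → ∃ s : ℕ, 1 ≤ s ∧ s ≤ y Y ∧ ω ∈ A s ∧ ω ∈ A (N - s)}
  let E2 : ℕ → Set Ω := fun Y =>
    {ω | (1 + c) * E Y + D Y ≤
      ((((Finset.Ioc (y1 Y) (y Y)).filter (Rou (v Y))).filter (fun s => ω ∈ A s)).card : ℝ)}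
  have hsum : Summable fun Y : ℕ => 1 / (Y : ℝ) ^ 2 := Real.summable_one_div_nat_pow.2 one_lt_two
  have b1 : ∀ᶠ Y : ℕ in atTop, P.real (E1 Y) ≤ 1 / (Y : ℝ) ^ 2 := by
    filter_upwards [hXN, hS', asy hε] with Y k1 k2 k3
    obtain ⟨s1, s2, s3, s4, s5, s6, s7, s8, -, s10, -⟩ := k2
    obtain ⟨k3, k4, k5⟩ := k3
    have hY1 : (1 : ℝ) ≤ Y := by exact_mod_cast (by omega : 1 ≤ Y)
    have hZY : Z Y ≤ Y := by
      have e1 : (Z Y : ℝ) ≤ (Y : ℝ) ^ (a + ε / 2) := Nat.floor_le (by positivity)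
      have e2 : (Y : ℝ) ^ (a + ε / 2) ≤ (Y : ℝ) ^ (1 : ℝ) :=
        Real.rpow_le_rpow_of_exponent_le hY1 (by linarith)
      rw [Real.rpow_one] at e2
      exact_mod_cast e1.trans e2
    refine (hSUP Ω P A z θ hG Y (Z Y) (y Y) (y1 Y) (z (y1 Y)) (v Y) (v2 Y) (J Y) (q Y) (B Y) s1 s2
      s3 le_rfl s4 s5 hZY (room k3 hε ha0 k4 s10) s7 s8 (hB0 Y) s6).trans ?_
    exact bound1 k3 hε ha0 k5 k1
  have b2 : ∀ᶠ Y : ℕ in atTop, P.real (E2 Y) ≤ 1 / (Y : ℝ) ^ 2 := by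
    filter_upwards [hS', asy hε] with Y k2 k3
    obtain ⟨-, -, -, -, -, -, -, -, s9, -, s11⟩ := k2
    refine (hCHE Ω P A hG.meas hG.indep ((Finset.Ioc (y1 Y) (y Y)).filter (Rou (v Y))) (E Y) (D Y) c
      hc0 (hD0 Y) s9).trans ?_
    rw [← exp_two_log (by omega), Real.exp_le_exp, neg_le_neg_iff]
    exact s11
  filter_upwards [bc_real hsum b1, bc_real hsum b2] with ω w1 w2
  filter_upwards [w1, w2, asy hε] with Y g1 g2 g3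
  obtain ⟨g3, -, -⟩ := g3
  have hY1 : (1 : ℝ) ≤ Y := by exact_mod_cast (by omega : 1 ≤ Y)
  have hcard : (((Finset.Ioc (y1 Y) (y Y)).filter (fun s => Rou (v Y) s ∧ ω ∈ A s)).card : ℝ) ≤
      B Y := by
    have g4 : ¬ (1 + c) * E Y + D Y ≤
      ((((Finset.Ioc (y1 Y) (y Y)).filter (Rou (v Y))).filter (fun s => ω ∈ A s)).card : ℝ) := g2
    rw [Finset.filter_filter] at g4
    exact (not_le.1 g4).le
  have g5 : ¬ ∀ N : ℕ, Y < N → N ≤ Y + Z Y → Even N →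
      ∃ s : ℕ, 1 ≤ s ∧ s ≤ y Y ∧ ω ∈ A s ∧ ω ∈ A (N - s) := fun h => g1 ⟨hcard, h⟩
  push Not at g5
  obtain ⟨N, n1, n2, n3, n4⟩ := g5
  have e1 : (Z Y : ℝ) ≤ (Y : ℝ) ^ (a + ε / 2) := Nat.floor_le (by positivity)
  have e2 : (Y : ℝ) ^ (a + ε / 2) ≤ (Y : ℝ) ^ (1 : ℝ) :=
    Real.rpow_le_rpow_of_exponent_le hY1 (by linarith)
  rw [Real.rpow_one] at e2
  have e3 : (Y : ℝ) ^ (a + ε / 2) ≤ (Y : ℝ) ^ (a + ε) :=
    Real.rpow_le_rpow_of_exponent_le hY1 (by linarith)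
  have hZY : Z Y ≤ Y := by exact_mod_cast e1.trans e2
  refine ⟨N, n1, ?_, n3, fun s hs1 hs2 hs3 => n4 s hs1 (range hκ g3 n1 (by omega) hs2) hs3⟩
  have e4 : (N : ℝ) ≤ Y + Z Y := by exact_mod_cast n2
  linarith

end Pool.Agent.H95.GG.T.FIN
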