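import Pool.Agent.H95.GG.Stm

/-! GG-GDY (helper94) -/

set_option autoImplicit false

namespace Pool.Agent.H95.GG.T.GDY

open Finset

/-- one step: `k` classes -/
lemma step (S : Finset ℕ) (p k : ℕ) (hk : 0 < k) (C : Finset ℕ) (hC : C.card = k)
    (hS : ∀ s ∈ S, s % p ∈ C) :
    ∃ c ∈ C, ((S.filter (fun s => s % p ≠ c)).card : ℝ) ≤ S.card * (1 - 1 / (k : ℝ)) := by
  classical
  by_contra hcon
  push Not at hcon
  have h1 : ∑ c ∈ C, ((S.filter (fun s => s % p = c)).card : ℝ) = S.card := by
    have := Finset.card_eq_sum_card_fiberwise (f := fun s => s % p) (s := S) (t := C) (fun s hs => hS s hs)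
    rw [this]
    push_cast
    rfl
  have h2 : ∀ c ∈ C, ((S.filter (fun s => s % p = c)).card : ℝ) < S.card / (k : ℝ) := by
    intro c hc
    have h3 := hcon c hc
    have h4 : ((S.filter (fun s => s % p = c)).card : ℝ) + ((S.filter (fun s => s % p ≠ c)).card : ℝ) = S.card := by
      exact_mod_cast Finset.card_filter_add_card_filter_not (s := S) (fun s => s % p = c)
    have h5 : (S.card : ℝ) * (1 - 1 / (k : ℝ)) = S.card - S.card / (k : ℝ) := by ring
    linarith
  have hne : C.Nonempty := by
    rw [← Finset.card_pos, hC]; exact hk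
  have h6 := Finset.sum_lt_sum_of_nonempty hne h2
  rw [h1, Finset.sum_const, hC, nsmul_eq_mul] at h6
  have hk0 : (k : ℝ) ≠ 0 := by positivity
  rw [mul_div_cancel₀ _ hk0] at h6
  exact lt_irrefl _ h6

lemma two (F₂ : Finset ℕ) : ∀ S : Finset ℕ, (∀ p ∈ F₂, p.Prime) →
    ∃ a : ℕ → ℕ, ((S.filter (fun s => ∀ p ∈ F₂, s % p ≠ a p % p)).card : ℝ) ≤
      S.card * ∏ p ∈ F₂, (1 - 1 / (p : ℝ)) := by
  classical
  induction F₂ using Finset.induction_on with
  | empty =>
    intro S _
    exact ⟨fun _ => 0, by simp⟩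
  | insert q F hq ih =>
    intro S hF
    have hqp := hF q (mem_insert_self _ _)
    obtain ⟨c, hc, h1⟩ := step S q q hqp.pos (range q) (card_range q)
      (fun s _ => mem_range.2 (Nat.mod_lt _ hqp.pos))
    obtain ⟨a, ha⟩ := ih (S.filter (fun s => s % q ≠ c)) (fun p hp => hF p (mem_insert_of_mem hp))
    refine ⟨Function.update a q c, ?_⟩
    have h2 : S.filter (fun s => ∀ p ∈ insert q F, s % p ≠ Function.update a q c p % p) =
        (S.filter (fun s => s % q ≠ c)).filter (fun s => ∀ p ∈ F, s % p ≠ a p % p) := by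
      ext s
      simp only [mem_filter, mem_insert, forall_eq_or_imp, Function.update_self]
      rw [Nat.mod_eq_of_lt (mem_range.1 hc), and_assoc]
      refine and_congr_right fun _ => and_congr_right fun _ => ?_
      refine forall₂_congr fun p hp => ?_
      rw [Function.update_of_ne]
      rintro rfl
      exact hq hp
    rw [h2, prod_insert hq]
    refine ha.trans ?_
    have h3 : 0 ≤ ∏ p ∈ F, (1 - 1 / (p : ℝ)) := by
      refine prod_nonneg fun p hp => ?_
      have := (hF p (mem_insert_of_mem hp)).one_le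
      have h4 : (1 : ℝ) ≤ p := by exact_mod_cast this
      have : 1 / (p : ℝ) ≤ 1 := by rw [div_le_one (by linarith)]; exact h4
      linarith
    calc _ ≤ (S.card * (1 - 1 / (q : ℝ))) * ∏ p ∈ F, (1 - 1 / (p : ℝ)) := mul_le_mul_of_nonneg_right h1 h3
      _ = _ := by ring

theorem main : S_GDY := by
  classical
  intro S F₁ F₂ hF₁
  revert S
  induction F₁ using Finset.induction_on with
  | empty =>
    intro S h2 _ _
    obtain ⟨a, ha⟩ := two F₂ S h2
    refine ⟨a, ?_⟩
    simpa using ha
  | insert q F hq ih =>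
    intro S h2 hS hdis
    obtain ⟨hqp, hq3⟩ := hF₁ q (mem_insert_self _ _)
    obtain ⟨c, hc, h1⟩ := step S q (q - 1) (by omega) ((range q).erase 0) (by
        rw [card_erase_of_mem (mem_range.2 hqp.pos), card_range])
      (fun s hs => by
        rw [mem_erase, mem_range]
        refine ⟨fun h => hS q (mem_insert_self _ _) s hs (Nat.dvd_of_mod_eq_zero h), Nat.mod_lt _ hqp.pos⟩)
    obtain ⟨a, ha⟩ := ih (fun p hp => hF₁ p (mem_insert_of_mem hp)) (S.filter (fun s => s % q ≠ c)) h2
      (fun p hp s hs => hS p (mem_insert_of_mem hp) s (mem_of_mem_filter s hs))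
      (Finset.disjoint_of_subset_left (subset_insert _ _) hdis)
    refine ⟨Function.update a q c, ?_⟩
    rw [mem_erase, mem_range] at hc
    have hqF₂ : q ∉ F₂ := fun h => (Finset.disjoint_left.1 hdis) (mem_insert_self _ _) h
    have h2' : S.filter (fun s => ∀ p ∈ insert q F ∪ F₂, s % p ≠ Function.update a q c p % p) =
        (S.filter (fun s => s % q ≠ c)).filter (fun s => ∀ p ∈ F ∪ F₂, s % p ≠ a p % p) := by
      ext s
      rw [insert_union]
      simp only [mem_filter, mem_insert, forall_eq_or_imp, Function.update_self]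
      rw [Nat.mod_eq_of_lt hc.2, and_assoc]
      refine and_congr_right fun _ => and_congr_right fun _ => ?_
      refine forall₂_congr fun p hp => ?_
      rw [Function.update_of_ne]
      rintro rfl
      rcases mem_union.1 hp with h | h
      · exact hq h
      · exact hqF₂ h
    rw [h2', prod_insert hq]
    refine ha.trans ?_
    have h3 : 0 ≤ ∏ p ∈ F, (1 - 1 / ((p : ℝ) - 1)) := by
      refine prod_nonneg fun p hp => ?_
      have := (hF₁ p (mem_insert_of_mem hp)).2
      have h4 : (3 : ℝ) ≤ p := by exact_mod_cast this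
      have : 1 / ((p : ℝ) - 1) ≤ 1 := by rw [div_le_one (by linarith)]; linarith
      linarith
    have h5 : 0 ≤ ∏ p ∈ F₂, (1 - 1 / (p : ℝ)) := by
      refine prod_nonneg fun p hp => ?_
      have := (h2 p hp).one_le
      have h4 : (1 : ℝ) ≤ p := by exact_mod_cast this
      have : 1 / (p : ℝ) ≤ 1 := by rw [div_le_one (by linarith)]; exact h4
      linarith
    have h6 : ((q - 1 : ℕ) : ℝ) = (q : ℝ) - 1 := by
      rw [Nat.cast_sub hqp.one_le, Nat.cast_one]
    rw [h6] at h1
    calc _ ≤ (S.card * (1 - 1 / ((q : ℝ) - 1))) * (∏ p ∈ F, (1 - 1 / ((p : ℝ) - 1))) *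
          ∏ p ∈ F₂, (1 - 1 / (p : ℝ)) :=
          mul_le_mul_of_nonneg_right (mul_le_mul_of_nonneg_right h1 h3) h5
      _ = _ := by ring

end Pool.Agent.H95.GG.T.GDY
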