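import Pool.Agent.H95.GG.Stm
import Pool.Agent.H50.GW.GXM

/-!
# GG-GXT (helper73): the models exist
-/

set_option autoImplicit false

open MeasureTheory Filter ProbabilityTheory
open scoped Topology ENNReal

namespace Pool.Agent.H95.GG.T.GXT

open Pool.Agent.H50.BF Pool.Agent.H50.GW Pool.Agent.H50.GW.GXMaux BTaux

/-- the level -/
noncomputable def zt (θ : ℝ) (n : ℕ) : ℕ := ⌊Real.log n ^ θ⌋₊

/-- the probabilities -/
noncomputable def qt (θ : ℝ) (n : ℕ) : ℝ := min 1 (MM (zt θ n) / Real.log n)

lemma qt_nonneg (θ : ℝ) (n : ℕ) : 0 ≤ qt θ n := by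
  unfold qt
  exact le_min zero_le_one (div_nonneg (MM_pos _).le (Real.log_natCast_nonneg n))

lemma qt_le (θ : ℝ) (n : ℕ) : qt θ n ≤ 1 := min_le_left _ _

/-- the distribution of one coordinate -/
noncomputable def mt (θ : ℝ) (n : ℕ) : Measure Bool :=
  ENNReal.ofReal (qt θ n) • Measure.dirac true + ENNReal.ofReal (1 - qt θ n) • Measure.dirac false

instance (θ : ℝ) (n : ℕ) : IsProbabilityMeasure (mt θ n) := by
  constructor
  unfold mt
  rw [Measure.add_apply, Measure.smul_apply, Measure.smul_apply, measure_univ, measure_univ,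
    smul_eq_mul, smul_eq_mul, mul_one, mul_one, ← ENNReal.ofReal_add (qt_nonneg θ n)
      (sub_nonneg.2 (qt_le θ n)), add_sub_cancel, ENNReal.ofReal_one]

lemma mt_true (θ : ℝ) (n : ℕ) : mt θ n {true} = ENNReal.ofReal (qt θ n) := by
  unfold mt
  rw [Measure.add_apply, Measure.smul_apply, Measure.smul_apply,
    Measure.dirac_apply' _ (MeasurableSet.of_discrete), Measure.dirac_apply' _ (MeasurableSet.of_discrete)]
  simp

open Classical in
/-- the set of allowed values -/
noncomputable def Bt (θ : ℝ) (n : ℕ) : Set Bool := if Rou (zt θ n) n then {true} else ∅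

/-- the events -/
noncomputable def At (θ : ℝ) (n : ℕ) : Set (ℕ → Bool) := (fun ω => ω n) ⁻¹' Bt θ n

lemma At_meas (θ : ℝ) (n : ℕ) : MeasurableSet (At θ n) :=
  (measurable_pi_apply n) (MeasurableSet.of_discrete)

theorem main : S_GXT := by
  intro θ hθ hθ1
  refine ⟨ℕ → Bool, inferInstance, Measure.infinitePi (mt θ), At θ, zt θ, ?_⟩
  have hlog : Tendsto (fun n : ℕ => Real.log n) atTop atTop :=
    Real.tendsto_log_atTop.comp tendsto_natCast_atTop_atTop
  have hpow : Tendsto (fun n : ℕ => Real.log n ^ θ) atTop atTop := (tendsto_rpow_atTop hθ).comp hlog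
  refine ⟨inferInstance, At_meas θ, ?_, ?_, ?_, ?_, ?_⟩
  · rw [iIndepSet_iff_meas_biInter (At_meas θ)]
    intro s
    have h := iIndepFun_infinitePi (P := mt θ) (X := fun _ x => x) (fun _ => measurable_id)
    exact h.measure_inter_preimage_eq_mul s (sets := Bt θ) (fun _ _ => MeasurableSet.of_discrete)
  · intro n hn
    unfold At Bt
    rw [if_neg hn, Set.preimage_empty]
  · intro m n hmn
    unfold zt
    apply Nat.floor_mono
    apply Real.rpow_le_rpow (Real.log_natCast_nonneg m) _ hθ.le
    rcases Nat.eq_zero_or_pos m with h | h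
    · subst h
      rw [Nat.cast_zero, Real.log_zero]
      exact Real.log_natCast_nonneg n
    · exact Real.log_le_log (by exact_mod_cast h) (by exact_mod_cast hmn)
  · have h1 := (log_ratio.comp hpow).const_mul θ
    rw [mul_one] at h1
    refine h1.congr' ?_
    filter_upwards [hlog.eventually_ge_atTop 3] with n hn
    have h2 : 0 < Real.log (Real.log n) := Real.log_pos (by linarith)
    simp only [Function.comp_apply, zt]
    rw [Real.log_rpow (by linarith)]
    field_simp
  · refine tendsto_const_nhds.congr' ?_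
    rw [Filter.EventuallyEq, eventually_inf_principal]
    filter_upwards [hlog.eventually_ge_atTop 1, hpow.eventually_ge_atTop 1] with n hn hp hr
    have hr' : Rou (zt θ n) n := hr
    have hz : 1 ≤ zt θ n := Nat.le_floor (by push_cast; linarith)
    have h0 : Real.log n ^ θ ≤ Real.log n := by
      calc Real.log n ^ θ ≤ Real.log n ^ (1 : ℝ) := Real.rpow_le_rpow_of_exponent_le hn hθ1
        _ = Real.log n := Real.rpow_one _
    have hM : MM (zt θ n) ≤ Real.log n :=
      (MM_le _ hz).trans ((Nat.floor_le (by linarith)).trans h0)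
    have hM0 := MM_pos (zt θ n)
    have hq : qt θ n = MM (zt θ n) / Real.log n := by
      unfold qt
      apply min_eq_right
      rw [div_le_one (by linarith)]
      exact hM
    have hP : Measure.infinitePi (mt θ) (At θ n) = ENNReal.ofReal (qt θ n) := by
      unfold At Bt
      rw [if_pos hr', ← Measure.map_apply (measurable_pi_apply n) (MeasurableSet.of_discrete),
        Measure.infinitePi_map_eval, mt_true]
    rw [hP, ENNReal.toReal_ofReal (qt_nonneg θ n), hq]
    field_simp

end Pool.Agent.H95.GG.T.GXT
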