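import Pool.Agent.H95.GG.Stm

set_option autoImplicit false
set_option linter.unusedSectionVars false

/-! # GG-HIS (helper81) -/

namespace Pool.Agent.H95.GG.T.HIS

open MeasureTheory Filter ProbabilityTheory
open scoped Topology ENNReal

/-- events which depend only on some coordinates -/
lemma pre {Ω κ : Type} {F : Ω → κ} {E : Set Ω} (h : ∀ ω ω', F ω = F ω' → ω ∈ E → ω' ∈ E) :
    F ⁻¹' (F '' E) = E := by
  refine Set.Subset.antisymm ?_ (Set.subset_preimage_image F E)
  rintro ω ⟨ω', h1, h2⟩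
  exact h ω' ω h2 h1

section

variable {Ω : Type} [MeasurableSpace Ω] {P : Measure Ω} {A : ℕ → Set Ω}

/-- the coordinates in a finite set -/
noncomputable def cor (A : ℕ → Set Ω) (S : Finset ℕ) : Ω → (S → ℕ) :=
  fun ω m => (A m).indicator (fun _ => 1) ω

lemma cor_eq {S : Finset ℕ} {ω ω' : Ω} (h : cor A S ω = cor A S ω') (m : ℕ) (hm : m ∈ S) :
    ω ∈ A m ↔ ω' ∈ A m := by
  have h1 := congrFun h ⟨m, hm⟩
  unfold cor at h1
  by_cases h2 : ω ∈ A m
  · by_cases h3 : ω' ∈ A m
    · exact ⟨fun _ => h3, fun _ => h2⟩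
    · simp [h2, h3] at h1
  · by_cases h3 : ω' ∈ A m
    · simp [h2, h3] at h1
    · exact ⟨fun h => absurd h h2, fun h => absurd h h3⟩

lemma cor_meas (hA : ∀ n, MeasurableSet (A n)) (S : Finset ℕ) : Measurable (cor A S) :=
  measurable_pi_lambda _ fun m => measurable_const.indicator (hA m)

/-- `E` depends on the coordinates in `S` -/
def Dep (A : ℕ → Set Ω) (S : Finset ℕ) (E : Set Ω) : Prop :=
  ∀ ω ω', (∀ m ∈ S, (ω ∈ A m ↔ ω' ∈ A m)) → ω ∈ E → ω' ∈ E

lemma dep_pre {S : Finset ℕ} {E : Set Ω} (h : Dep A S E) :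
    cor A S ⁻¹' (cor A S '' E) = E :=
  pre fun ω ω' h1 => h ω ω' (cor_eq h1)

lemma dep_meas (hA : ∀ n, MeasurableSet (A n)) {S : Finset ℕ} {E : Set Ω} (h : Dep A S E) :
    MeasurableSet E := by
  rw [← dep_pre h]
  exact cor_meas hA S (Set.to_countable _).measurableSet

lemma indep_two (hA : ∀ n, MeasurableSet (A n)) (hI : iIndepSet A P) {S T : Finset ℕ}
    (hST : Disjoint S T) {E F : Set Ω} (hE : Dep A S E) (hF : Dep A T F) :
    P.real (E ∩ F) = P.real E * P.real F := by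
  have h1 : iIndepFun (fun m => (A m).indicator (fun _ => (1 : ℕ))) P := hI.iIndepFun_indicator
  have h2 := h1.indepFun_finset S T hST fun m => measurable_const.indicator (hA m)
  rw [indepFun_iff_measure_inter_preimage_eq_mul] at h2
  have h3 := h2 (cor A S '' E) (cor A T '' F) (Set.to_countable _).measurableSet
    (Set.to_countable _).measurableSet
  have h4 : P (cor A S ⁻¹' (cor A S '' E) ∩ cor A T ⁻¹' (cor A T '' F)) =
      P (cor A S ⁻¹' (cor A S '' E)) * P (cor A T ⁻¹' (cor A T '' F)) := h3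
  rw [dep_pre hE, dep_pre hF] at h4
  rw [measureReal_def, h4, ENNReal.toReal_mul]
  rfl

/-- independence of events depending on disjoint finite sets of coordinates -/
lemma indep_events [IsProbabilityMeasure P] (hA : ∀ n, MeasurableSet (A n)) (hI : iIndepSet A P)
    {J : Type} [Fintype J] (S : J → Finset ℕ) (hS : ∀ i j, i ≠ j → Disjoint (S i) (S j))
    (E : J → Set Ω) (hE : ∀ j, Dep A (S j) (E j)) :
    P.real (⋂ j, E j) = ∏ j, P.real (E j) := by
  classical
  have h1 : ∀ t : Finset J, P.real (⋂ j ∈ t, E j) = ∏ j ∈ t, P.real (E j) := by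
    intro t
    induction t using Finset.induction_on with
    | empty => simp
    | insert a t ha ih =>
      rw [Finset.set_biInter_insert, Finset.prod_insert ha, ← ih]
      refine indep_two hA hI (S := S a) (T := t.biUnion S) ?_ (hE a) ?_
      · rw [Finset.disjoint_biUnion_right]
        intro i hi
        exact hS a i fun h => ha (h ▸ hi)
      · intro ω ω' h hω
        rw [Set.mem_iInter₂] at hω ⊢
        intro j hj
        exact hE j ω ω' (fun m hm => h m (Finset.mem_biUnion.2 ⟨j, hj, hm⟩)) (hω j hj)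
  have h2 := h1 Finset.univ
  simpa using h2

/-- elementary inequality -/
lemma exp_le {x θ : ℝ} (h0 : 0 ≤ x) (h1 : x ≤ θ) (h2 : θ ≤ 1 / 2) :
    Real.exp (-((1 + 2 * θ) * x)) ≤ 1 - x := by
  have h3 : 0 < 1 + (1 + 2 * θ) * x := by nlinarith
  have h4 := Real.add_one_le_exp ((1 + 2 * θ) * x)
  have h6 : (1 + (1 + 2 * θ) * x)⁻¹ ≤ 1 - x := by
    rw [inv_le_iff_one_le_mul₀ h3]
    have h7 : 0 ≤ x * (2 * θ - (1 + 2 * θ) * x) := by
      refine mul_nonneg h0 ?_
      nlinarith
    nlinarith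
  refine le_trans ?_ h6
  rw [Real.exp_neg]
  exact inv_anti₀ h3 (by linarith)

/-- one position is hit -/
lemma hit_le [IsProbabilityMeasure P] (hA : ∀ n, MeasurableSet (A n)) (hI : iIndepSet A P)
    {H : Finset ℕ} {N y : ℕ} {V θ : ℝ} (hH : ∀ s ∈ H, s ≤ y) (hN : 2 * y < N) (hθ0 : 0 ≤ θ)
    (hθ : θ ≤ 1 / 2) (h1 : ∀ s ∈ H, P.real (A (N - s)) ≤ θ)
    (h2 : ∑ s ∈ H, P.real (A (N - s)) ≤ V) :
    P.real {ω | ∃ s ∈ H, ω ∈ A (N - s)} ≤ Real.exp (-Real.exp (-((1 + 2 * θ) * V))) := by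
  classical
  have h3 := indep_events hA hI (J := H) (fun s => {N - s.1}) (fun i j hij => by
    rw [Finset.disjoint_singleton]
    intro h
    have h5 := hH i.1 i.2
    have h6 := hH j.1 j.2
    exact hij (Subtype.ext (by omega))) (fun s => (A (N - s.1))ᶜ) (fun s ω ω' h hω hω' =>
      hω ((h (N - s.1) (Finset.mem_singleton_self _)).2 hω'))
  have h4 : (⋂ s : H, (A (N - s.1))ᶜ) = {ω | ∃ s ∈ H, ω ∈ A (N - s)}ᶜ := by
    ext ω
    simp only [Set.mem_iInter, Set.mem_compl_iff, Set.mem_ofPred_eq, not_exists, not_and]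
    exact ⟨fun h s hs => h ⟨s, hs⟩, fun h s => h s.1 s.2⟩
  have h5 : MeasurableSet {ω | ∃ s ∈ H, ω ∈ A (N - s)} := by
    have : {ω | ∃ s ∈ H, ω ∈ A (N - s)} = ⋃ s ∈ H, A (N - s) := by
      ext ω
      simp
    rw [this]
    exact Finset.measurableSet_biUnion _ fun s _ => hA _
  rw [h4, probReal_compl_eq_one_sub h5] at h3
  have h6 : Real.exp (-((1 + 2 * θ) * V)) ≤ ∏ s : H, P.real (A (N - s.1))ᶜ := by
    have h7 : ∀ s : H, Real.exp (-((1 + 2 * θ) * P.real (A (N - s.1)))) ≤ P.real (A (N - s.1))ᶜ := by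
      intro s
      rw [probReal_compl_eq_one_sub (hA _)]
      exact exp_le measureReal_nonneg (h1 s.1 s.2) hθ
    refine le_trans ?_ (Finset.prod_le_prod (fun s _ => (Real.exp_pos _).le) fun s _ => h7 s)
    rw [← Real.exp_sum, Real.exp_le_exp, Finset.sum_neg_distrib, ← Finset.mul_sum, neg_le_neg_iff]
    have h8 : ∑ s : H, P.real (A (N - s.1)) = ∑ s ∈ H, P.real (A (N - s)) :=
      Finset.sum_coe_sort H fun s => P.real (A (N - s))
    rw [h8]
    exact mul_le_mul_of_nonneg_left h2 (by linarith)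
  have h9 := Real.add_one_le_exp (-Real.exp (-((1 + 2 * θ) * V)))
  linarith

end

open Classical in
theorem main : S_HIS := by
  intro Ω _ P _ A hA hI y J V θ G I hθ0 hθ hG
  set hist : Ω → Finset ℕ := fun ω => (Finset.Icc 1 y).filter (fun s => ω ∈ A s) with hh
  set e : ℝ := Real.exp (-((1 + 2 * θ) * V)) with he
  set HH : Finset (Finset ℕ) := (Finset.Icc 1 y).powerset.filter G with hHH
  have hdep : ∀ H : Finset ℕ, Dep A (Finset.Icc 1 y) {ω | hist ω = H} := by
    intro H ω ω' h hω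
    have : hist ω' = hist ω := by
      simp only [hh]
      exact Finset.filter_congr fun s hs => (h s hs).symm
    show hist ω' = H
    rw [this]
    exact hω
  have key : ∀ H ∈ HH, P.real {ω | hist ω = H ∧ ∀ N ∈ I H, ∃ s ∈ H, ω ∈ A (N - s)} ≤
      P.real {ω | hist ω = H} * Real.exp (-(J * e)) := by
    intro H hH
    rw [hHH, Finset.mem_filter, Finset.mem_powerset] at hH
    obtain ⟨hH1, hH2⟩ := hH
    obtain ⟨g1, g2, g3⟩ := hG H hH1 hH2
    have hHy : ∀ s ∈ H, 1 ≤ s ∧ s ≤ y := fun s hs => Finset.mem_Icc.1 (hH1 hs)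
    have h1 := indep_events (P := P) hA hI (J := Option (I H))
      (fun o => o.elim (Finset.Icc 1 y) fun N => H.image fun s => N.1 - s) (by
        rintro (_ | N) (_ | N') hne
        · exact absurd rfl hne
        · show Disjoint (Finset.Icc 1 y) (H.image fun s => N'.1 - s)
          rw [Finset.disjoint_left]
          intro m hm hm'
          obtain ⟨s, hs, rfl⟩ := Finset.mem_image.1 hm'
          have h3 := (g2 N'.1 N'.2).1
          have h4 := hHy s hs
          have h5 := (Finset.mem_Icc.1 hm).2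
          omega
        · show Disjoint (H.image fun s => N.1 - s) (Finset.Icc 1 y)
          rw [Finset.disjoint_left]
          intro m hm' hm
          obtain ⟨s, hs, rfl⟩ := Finset.mem_image.1 hm'
          have h3 := (g2 N.1 N.2).1
          have h4 := hHy s hs
          have h5 := (Finset.mem_Icc.1 hm).2
          omega
        · show Disjoint (H.image fun s => N.1 - s) (H.image fun s => N'.1 - s)
          rw [Finset.disjoint_left]
          intro m hm hm'
          obtain ⟨s, hs, rfl⟩ := Finset.mem_image.1 hm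
          obtain ⟨s', hs', h6⟩ := Finset.mem_image.1 hm'
          have h4 := hHy s hs
          have h5 := hHy s' hs'
          have h7 := (g2 N.1 N.2).1
          have h8 := (g2 N'.1 N'.2).1
          have hne' : N.1 ≠ N'.1 := fun h => hne (by rw [Subtype.ext h])
          rcases lt_or_gt_of_ne hne' with h9 | h9
          · have := g3 N.1 N.2 N'.1 N'.2 h9
            omega
          · have := g3 N'.1 N'.2 N.1 N.2 h9
            omega)
      (fun o => o.elim {ω | hist ω = H} fun N => {ω | ∃ s ∈ H, ω ∈ A (N.1 - s)}) (by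
        rintro (_ | N)
        · exact hdep H
        · rintro ω ω' h ⟨s, hs, hω⟩
          exact ⟨s, hs, (h (N.1 - s) (Finset.mem_image.2 ⟨s, hs, rfl⟩)).1 hω⟩)
    have h2 : (⋂ o : Option (I H), (o.elim {ω | hist ω = H} fun N =>
        {ω | ∃ s ∈ H, ω ∈ A (N.1 - s)} : Set Ω)) =
        {ω | hist ω = H ∧ ∀ N ∈ I H, ∃ s ∈ H, ω ∈ A (N - s)} := by
      ext ω
      rw [Set.mem_iInter]
      constructor
      · intro h
        exact ⟨h none, fun N hN => h (some ⟨N, hN⟩)⟩
      · rintro ⟨h, h'⟩ (_ | N)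
        · exact h
        · exact h' N.1 N.2
    rw [h2, Fintype.prod_option] at h1
    rw [h1]
    refine mul_le_mul_of_nonneg_left ?_ measureReal_nonneg
    have h3 : ∏ N : I H, P.real {ω | ∃ s ∈ H, ω ∈ A (N.1 - s)} ≤ ∏ _N : I H, Real.exp (-e) :=
      Finset.prod_le_prod (fun _ _ => measureReal_nonneg) fun N _ =>
        hit_le hA hI (fun s hs => (hHy s hs).2) (g2 N.1 N.2).1 hθ0 hθ (g2 N.1 N.2).2.1
          (g2 N.1 N.2).2.2
    refine h3.trans (le_of_eq ?_)
    rw [Finset.prod_const, Finset.card_univ, Fintype.card_coe, g1, ← Real.exp_nat_mul]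
    congr 1
    ring
  have hsub : {ω | G (hist ω) ∧ ∀ N ∈ I (hist ω), ∃ s ∈ hist ω, ω ∈ A (N - s)} ⊆
      ⋃ H ∈ HH, {ω | hist ω = H ∧ ∀ N ∈ I H, ∃ s ∈ H, ω ∈ A (N - s)} := by
    rintro ω ⟨h1, h2⟩
    rw [Set.mem_iUnion₂]
    refine ⟨hist ω, ?_, rfl, h2⟩
    rw [hHH, Finset.mem_filter, Finset.mem_powerset]
    exact ⟨Finset.filter_subset _ _, h1⟩
  have hsum : ∑ H ∈ HH, P.real {ω | hist ω = H} ≤ 1 := by
    have h1 := sum_measureReal_preimage_singleton (μ := P) HH (f := hist)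
      (fun H _ => dep_meas hA (hdep H))
    have h2 : ∑ H ∈ HH, P.real {ω | hist ω = H} = ∑ H ∈ HH, P.real (hist ⁻¹' {H}) := rfl
    rw [h2, h1]
    exact measureReal_le_one
  calc P.real {ω | G (hist ω) ∧ ∀ N ∈ I (hist ω), ∃ s ∈ hist ω, ω ∈ A (N - s)} ≤
      P.real (⋃ H ∈ HH, {ω | hist ω = H ∧ ∀ N ∈ I H, ∃ s ∈ H, ω ∈ A (N - s)}) :=
        measureReal_mono hsub (measure_ne_top _ _)
    _ ≤ ∑ H ∈ HH, P.real {ω | hist ω = H ∧ ∀ N ∈ I H, ∃ s ∈ H, ω ∈ A (N - s)} :=
        measureReal_biUnion_finset_le _ _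
    _ ≤ ∑ H ∈ HH, P.real {ω | hist ω = H} * Real.exp (-(J * e)) := Finset.sum_le_sum key
    _ = (∑ H ∈ HH, P.real {ω | hist ω = H}) * Real.exp (-(J * e)) := by rw [Finset.sum_mul]
    _ ≤ 1 * Real.exp (-(J * e)) := by gcongr
    _ = Real.exp (-(J * e)) := one_mul _

end Pool.Agent.H95.GG.T.HIS
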