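import Pool.Agent.H95.GG.Stm

set_option autoImplicit false

open MeasureTheory Filter ProbabilityTheory
open scoped Topology ENNReal

namespace Pool.Agent.H95.GG.T.MMZ

open Pool.Agent.H50.BF (MM S_MERT)

lemma log_floor : Tendsto (fun x : ℝ => Real.log (⌊x⌋₊ : ℝ) / Real.log x) atTop (𝓝 1) := by
  have h1 : Tendsto (fun x : ℝ => (⌊x⌋₊ : ℝ) / x) atTop (𝓝 1) := tendsto_nat_floor_div_atTop
  have h2 : Tendsto (fun x : ℝ => Real.log ((⌊x⌋₊ : ℝ) / x)) atTop (𝓝 0) := by
    have := (Real.continuousAt_log (one_ne_zero)).tendsto.comp h1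
    rw [Real.log_one] at this
    exact this
  have h3 : Tendsto (fun x : ℝ => 1 + Real.log ((⌊x⌋₊ : ℝ) / x) / Real.log x) atTop (𝓝 1) := by
    have := (h2.div_atTop Real.tendsto_log_atTop).const_add 1
    simpa using this
  refine h3.congr' ?_
  filter_upwards [eventually_gt_atTop 2] with x hx
  have hx0 : 0 < Real.log x := Real.log_pos (by linarith)
  have hf : (0 : ℝ) < ⌊x⌋₊ := by exact_mod_cast Nat.floor_pos.2 (by linarith)
  rw [Real.log_div hf.ne' (by linarith)]
  field_simp
  ring

theorem main (hM : S_MERT) : S_MMZ := by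
  intro Ω _ P A z θ h hθ
  have hl : Tendsto (fun n : ℕ => Real.log (Real.log n)) atTop atTop :=
    Real.tendsto_log_atTop.comp (Real.tendsto_log_atTop.comp tendsto_natCast_atTop_atTop)
  have hlz : Tendsto (fun n : ℕ => Real.log (z n)) atTop atTop := by
    have h1 := h.lev.pos_mul_atTop hθ hl
    refine h1.congr' ?_
    filter_upwards [hl.eventually_gt_atTop 0] with n hn
    field_simp
  have hz : Tendsto z atTop atTop := by
    have h1 : Tendsto (fun n : ℕ => (z n : ℝ)) atTop atTop :=
      tendsto_atTop_mono (fun n => Real.log_le_self (Nat.cast_nonneg _)) hlz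
    exact tendsto_natCast_atTop_iff.1 h1
  have hMz : Tendsto (fun n : ℕ => MM (z n) / Real.log (Real.log n)) atTop
      (𝓝 (Real.exp Real.eulerMascheroniConstant * θ)) := by
    have h1 := (hM.comp hz).mul h.lev
    refine h1.congr' ?_
    filter_upwards [hlz.eventually_gt_atTop 0] with n hn
    simp only [Function.comp]
    field_simp
  refine ⟨fun f hf => ⟨hz.comp hf, hMz.comp hf⟩, fun b hb => ?_⟩
  have hx : Tendsto (fun Y : ℕ => Real.log Y ^ b) atTop atTop :=
    (tendsto_rpow_atTop hb).comp (Real.tendsto_log_atTop.comp tendsto_natCast_atTop_atTop)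
  have hg : Tendsto (fun Y : ℕ => ⌊Real.log Y ^ b⌋₊) atTop atTop := tendsto_nat_floor_atTop.comp hx
  have h1 := (hM.comp hg).mul ((log_floor.comp hx).mul_const b)
  rw [one_mul] at h1
  refine h1.congr' ?_
  have hlg : Tendsto (fun Y : ℕ => Real.log (⌊Real.log Y ^ b⌋₊ : ℝ)) atTop atTop :=
    Real.tendsto_log_atTop.comp (tendsto_natCast_atTop_atTop.comp hg)
  filter_upwards [hl.eventually_gt_atTop 0, hlg.eventually_gt_atTop 0,
    (Real.tendsto_log_atTop.comp tendsto_natCast_atTop_atTop).eventually_gt_atTop (0 : ℝ)] with Y h2 h3 h4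
  simp only [Function.comp] at h4 ⊢
  rw [Real.log_rpow h4]
  field_simp

end Pool.Agent.H95.GG.T.MMZ
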