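import Pool.Agent.H95.GG.Stm
import Pool.Agent.H50.GW.EXPW
import Pool.Agent.H50.BF.BT

/-! # GG-NUM (helper82) -/

set_option autoImplicit false

open MeasureTheory Filter ProbabilityTheory
open scoped Topology ENNReal

namespace Pool.Agent.H95.GG.T.NUM

open Pool.Agent.H50.BF (MM)
open Pool.Agent.H50.GW.EXPWaux (tlog tll ll_B tB)
open Pool.Agent.H50.BF.BTaux (MM_mono one_le_MM)
open Pool.Agent.R529.BU (om)

lemma Mpos (v : ℕ) : 0 < MM v := zero_lt_one.trans_le (one_le_MM v)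

lemma TP_bd (w : ℕ) : 0 ≤ TP w ∧ TP w ≤ 1 := by
  unfold TP
  have h : ∀ p ∈ (Finset.Icc 3 w).filter Nat.Prime,
      0 ≤ 1 - 1 / ((p : ℝ) - 1) ∧ 1 - 1 / ((p : ℝ) - 1) ≤ 1 := by
    intro p hp
    rw [Finset.mem_filter, Finset.mem_Icc] at hp
    have h3 : (3 : ℝ) ≤ p := by exact_mod_cast hp.1.1
    have h4 : 0 < (p : ℝ) - 1 := by linarith
    have h5 : 1 / ((p : ℝ) - 1) ≤ 1 := by rw [div_le_one h4]; linarith
    have h6 : 0 < 1 / ((p : ℝ) - 1) := by positivity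
    constructor <;> linarith
  exact ⟨Finset.prod_nonneg fun p hp => (h p hp).1,
    Finset.prod_le_one (fun p hp => (h p hp).1) fun p hp => (h p hp).2⟩

lemma choose_c {a ε : ℝ} (ha : 0 ≤ a) (hε : 0 < ε) : ∃ c : ℝ, 0 < c ∧ c < 1 ∧
    ∀ δ η τ : ℝ, 0 < δ → δ ≤ c → 0 < η → η ≤ c → 0 < τ → τ ≤ c →
      (1 + τ) ^ 4 * (2 / (2 - δ)) * (1 / (1 - η)) * a < a + ε := by
  have h1 : Tendsto (fun c : ℝ => (1 + c) ^ 4 * (2 / (2 - c)) * (1 / (1 - c)) * a) (𝓝[>] 0)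
      (𝓝 ((1 + 0) ^ 4 * (2 / (2 - 0)) * (1 / (1 - 0)) * a)) := by
    have : ContinuousAt (fun c : ℝ => (1 + c) ^ 4 * (2 / (2 - c)) * (1 / (1 - c)) * a) 0 := by
      fun_prop (disch := norm_num)
    exact this.tendsto.mono_left nhdsWithin_le_nhds
  have h2 : (1 + 0) ^ 4 * (2 / (2 - 0)) * (1 / (1 - 0)) * a < a + ε := by
    norm_num
    exact hε
  have h3 := h1.eventually_lt_const h2
  have h4 : ∀ᶠ c : ℝ in 𝓝[>] 0, c ∈ Set.Ioo (0 : ℝ) 1 := Ioo_mem_nhdsGT one_pos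
  obtain ⟨c, h5, h6⟩ := (h3.and h4).exists
  refine ⟨c, h6.1, h6.2, fun δ η τ d0 d1 e0 e1 t0 t1 => lt_of_le_of_lt ?_ h5⟩
  have h7 : 0 < 2 - c := by linarith [h6.2]
  have h8 : 0 < 1 - c := by linarith [h6.2]
  have h9 : 0 < 2 - δ := by linarith
  have h10 : 0 < 1 - η := by linarith
  gcongr

lemma alg (L y1 X Y T R q : ℝ) (hL : L ≠ 0) : (1 + 2 * q) * ((y1 + (X + Y) * T * R) * q) =
    (1 + 2 * q) * (y1 * q / L + X * T * R * q / L + Y * T * R * q / L) * L := by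
  field_simp
  ring

lemma log_rp {e : ℝ} (he : 0 < e) :
    Tendsto (fun Y : ℕ => Real.log (Real.log Y) / Real.log Y ^ e) atTop (𝓝 0) :=
  ((isLittleO_log_rpow_atTop he).tendsto_div_nhds_zero).comp tlog

theorem main (hROU : S_ROU) (hTW : S_TW) (hMMZ : S_MMZ) (hYY : S_YY) : S_NUM := by
  intro Ω _ P A z θ hG hθ hθ1 u κ ε hu hκ hε
  have hu1 : 1 < u := by
    have : 2 ≤ 2 / θ := by rw [le_div_iff₀ hθ]; linarith
    linarith
  obtain ⟨hC1, hC2⟩ := hTW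
  have hR := hROU u hu1
  obtain ⟨G, hGd⟩ : ∃ G : ℝ, G = Real.exp Real.eulerMascheroniConstant := ⟨_, rfl⟩
  have hG0 : 0 < G := by rw [hGd]; exact Real.exp_pos _
  rw [← hGd] at hR
  have hom : 0 ≤ G * om u := by
    refine ge_of_tendsto' hR fun x => ?_
    have := Mpos ⌊(x : ℝ) ^ (1 / u)⌋₊
    positivity
  have hccd : cc u = C2 * (G * om u) := by unfold cc; rw [hGd]
  have hcc : 0 ≤ κ * cc u := by
    rw [hccd]
    exact mul_nonneg hκ.le (mul_nonneg hC2.le hom)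
  obtain ⟨c, hc0, hc1, hc⟩ := choose_c hcc hε
  refine ⟨c, hc0, hc1, fun δ η τ d0 d1 e0 e1 t0 t1 => ?_⟩
  have hfin := hc δ η τ d0 d1 e0 e1 t0 t1
  obtain ⟨y0, y1, -, y3, y4, y5⟩ := hYY κ hκ
  obtain ⟨z1, z2⟩ := hMMZ Ω P A z θ hG hθ
  obtain ⟨f1, f2, f3⟩ := y5 (2 - δ) (by linarith) (by linarith)
  obtain ⟨-, z1y⟩ := z1 _ y0
  obtain ⟨z1f, z1f'⟩ := z1 _ f1
  have z12 := (z1 _ (tB (B := 2) (by norm_num))).2
  rw [← hGd] at z1y z1f' z12
  have hGθ : 0 < G * θ := by positivity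
  have hη1 : 0 < 1 - η := by linarith
  have hz8 := z2 (θ * (1 - η)) (by positivity)
  have hz3 := z2 3 (by norm_num)
  rw [← hGd] at hz8 hz3
  -- `log log log Y → ∞`
  have tlll : Tendsto (fun Y : ℕ => Real.log (Real.log (Real.log Y))) atTop atTop :=
    Real.tendsto_log_atTop.comp tll
  have tlly : Tendsto (fun Y : ℕ => Real.log (Real.log (yy κ Y))) atTop atTop := tll.comp y0
  have tllf : Tendsto (fun Y : ℕ => Real.log (Real.log ⌊Real.log Y ^ (2 - δ)⌋₊)) atTop atTop :=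
    tll.comp f1
  have tll2 : Tendsto (fun Y : ℕ => Real.log (Real.log ((2 * Y : ℕ) : ℝ))) atTop atTop :=
    tll.comp (tB (B := 2) (by norm_num))
  have tlf : Tendsto (fun Y : ℕ => Real.log ⌊Real.log Y ^ (2 - δ)⌋₊) atTop atTop := tlog.comp f1
  -- the ratio of the two Mertens products
  have hA4 : Tendsto (fun Y : ℕ => MM (z (yy κ Y)) / MM (z ⌊Real.log Y ^ (2 - δ)⌋₊)) atTop (𝓝 1) := by
    have h1 := (z1y.mul y3).div (z1f'.mul f3) (by positivity)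
    rw [div_self (by positivity)] at h1
    refine h1.congr' ?_
    filter_upwards [tlll.eventually_gt_atTop 0, tlly.eventually_gt_atTop 0,
      tllf.eventually_gt_atTop 0] with Y h2 h3 h4
    have h5 := Mpos (z ⌊Real.log Y ^ (2 - δ)⌋₊)
    simp only [Pi.div_apply]
    field_simp
  have hA7 : Tendsto (fun Y : ℕ => MM (z (2 * Y)) / Real.log (Real.log Y)) atTop (𝓝 (G * θ)) := by
    have h1 := z12.mul (ll_B (B := 2) (by norm_num))
    rw [mul_one] at h1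
    refine h1.congr' ?_
    filter_upwards [tll2.eventually_gt_atTop 0, tll.eventually_gt_atTop 0] with Y h2 h3
    field_simp
  have hA78 : Tendsto (fun Y : ℕ => MM (z (2 * Y)) / MM ⌊Real.log Y ^ (θ * (1 - η))⌋₊) atTop
      (𝓝 (1 / (1 - η))) := by
    have h1 := hA7.div hz8 (by positivity)
    have h2 : G * θ / (G * (θ * (1 - η))) = 1 / (1 - η) := by field_simp
    rw [h2] at h1
    refine h1.congr' ?_
    filter_upwards [tll.eventually_gt_atTop 0] with Y h3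
    have h5 := Mpos ⌊Real.log Y ^ (θ * (1 - η))⌋₊
    simp only [Pi.div_apply]
    field_simp
  have hq : Tendsto (fun Y : ℕ => (1 + τ) ^ 2 * (MM (z (2 * Y)) / Real.log Y)) atTop (𝓝 0) := by
    have h1 := (hA7.mul (log_rp (e := 1) one_pos)).const_mul ((1 + τ) ^ 2)
    rw [mul_zero, mul_zero] at h1
    refine h1.congr' ?_
    filter_upwards [tll.eventually_gt_atTop 0, tlog.eventually_gt_atTop 0] with Y h2 h3
    rw [Real.rpow_one]
    field_simp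
  -- the three terms
  have hT1 : Tendsto (fun Y : ℕ => (⌊Real.log Y ^ (2 - δ)⌋₊ : ℝ) *
      ((1 + τ) ^ 2 * (MM (z (2 * Y)) / Real.log Y)) / Real.log Y) atTop (𝓝 0) := by
    have h0 : Tendsto (fun Y : ℕ => (⌊Real.log Y ^ (2 - δ)⌋₊ : ℝ) / Real.log Y ^ (2 - δ)) atTop (𝓝 1) :=
      (tendsto_nat_floor_div_atTop (R := ℝ)).comp ((tendsto_rpow_atTop (by linarith)).comp tlog)
    have h1 := (h0.mul (hA7.mul (log_rp d0))).const_mul ((1 + τ) ^ 2)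
    rw [mul_zero, mul_zero, mul_zero] at h1
    refine h1.congr' ?_
    filter_upwards [tll.eventually_gt_atTop 0, tlog.eventually_gt_atTop 0] with Y h2 h3
    have h4 : Real.log Y ^ (2 - δ) * Real.log Y ^ δ = Real.log Y ^ 2 := by
      rw [← Real.rpow_add h3, ← Real.rpow_natCast]
      congr 1
      push_cast; ring
    have h5 : 0 < Real.log Y ^ (2 - δ) := by positivity
    have h6 : 0 < Real.log Y ^ δ := by positivity
    calc (1 + τ) ^ 2 * ((⌊Real.log Y ^ (2 - δ)⌋₊ : ℝ) / Real.log Y ^ (2 - δ) *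
          (MM (z (2 * Y)) / Real.log (Real.log Y) * (Real.log (Real.log Y) / Real.log Y ^ δ))) =
        (1 + τ) ^ 2 * (⌊Real.log Y ^ (2 - δ)⌋₊ : ℝ) * MM (z (2 * Y)) /
          (Real.log Y ^ (2 - δ) * Real.log Y ^ δ) := by field_simp
      _ = _ := by rw [h4]; field_simp
  have hT2 : Tendsto (fun Y : ℕ => (1 + τ) * ((1 + τ) * (ru ⌊(yy κ Y : ℝ) ^ (1 / u)⌋₊ (yy κ Y)) *
      (MM (z (yy κ Y)) / Real.log ⌊Real.log Y ^ (2 - δ)⌋₊)) * TP (z ⌊Real.log Y ^ (2 - δ)⌋₊) *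
      (MM ⌊(yy κ Y : ℝ) ^ (1 / u)⌋₊ / MM ⌊Real.log Y ^ (θ * (1 - η))⌋₊) *
      ((1 + τ) ^ 2 * (MM (z (2 * Y)) / Real.log Y)) / Real.log Y) atTop
      (𝓝 ((1 + τ) ^ 4 * (2 / (2 - δ)) * (1 / (1 - η)) * (κ * cc u))) := by
    have h1 := (((((hR.comp y0).mul y1).mul (f2.inv₀ (by linarith))).mul hA4).mul
      ((hC1.comp z1f).mul hA78)).const_mul ((1 + τ) ^ 4)
    have h2 : (1 + τ) ^ 4 * (G * om u * κ * (2 - δ)⁻¹ * 1 * (2 * C2 * (1 / (1 - η)))) =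
        (1 + τ) ^ 4 * (2 / (2 - δ)) * (1 / (1 - η)) * (κ * cc u) := by
      rw [hccd]
      have : 2 - δ ≠ 0 := by linarith
      field_simp
    rw [h2] at h1
    refine h1.congr' ?_
    filter_upwards [tll.eventually_gt_atTop 0, tlog.eventually_gt_atTop 0, y0.eventually_gt_atTop 0,
      tlf.eventually_gt_atTop 0] with Y h2 h3 h4 h5
    have h6 := Mpos (z ⌊Real.log Y ^ (2 - δ)⌋₊)
    have h7 := Mpos ⌊Real.log Y ^ (θ * (1 - η))⌋₊
    have h8 : (0 : ℝ) < yy κ Y := by exact_mod_cast h4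
    simp only [Function.comp]
    field_simp
  have hT3 : Tendsto (fun Y : ℕ => (yy κ Y : ℝ) ^ (3 / 4 : ℝ) * TP (z ⌊Real.log Y ^ (2 - δ)⌋₊) *
      (MM ⌊(yy κ Y : ℝ) ^ (1 / u)⌋₊ / MM ⌊Real.log Y ^ (θ * (1 - η))⌋₊) *
      ((1 + τ) ^ 2 * (MM (z (2 * Y)) / Real.log Y)) / Real.log Y) atTop (𝓝 0) := by
    have h1 := (((hz3.mul hA7).mul ((log_rp (e := 1 / 16) (by norm_num)).pow 2))).const_mul ((1 + τ) ^ 2)
    rw [zero_pow two_ne_zero, mul_zero, mul_zero] at h1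
    refine squeeze_zero' ?_ ?_ h1
    · filter_upwards [tlog.eventually_gt_atTop 0] with Y h3
      have h5 := Mpos (z (2 * Y))
      have h6 := Mpos ⌊(yy κ Y : ℝ) ^ (1 / u)⌋₊
      have h7 := Mpos ⌊Real.log Y ^ (θ * (1 - η))⌋₊
      have h8 := (TP_bd (z ⌊Real.log Y ^ (2 - δ)⌋₊)).1
      positivity
    · filter_upwards [tll.eventually_gt_atTop 0, tlog.eventually_ge_atTop 1,
        y4 (1 / 2) (by norm_num)] with Y h2 h3 h4
      have hL0 : 0 < Real.log Y := by linarith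
      have h5 := Mpos (z (2 * Y))
      have h6 := Mpos ⌊(yy κ Y : ℝ) ^ (1 / u)⌋₊
      have h7 := Mpos ⌊Real.log Y ^ (θ * (1 - η))⌋₊
      have h7' := one_le_MM ⌊Real.log Y ^ (θ * (1 - η))⌋₊
      obtain ⟨h8, h8'⟩ := TP_bd (z ⌊Real.log Y ^ (2 - δ)⌋₊)
      have b1 : (yy κ Y : ℝ) ^ (3 / 4 : ℝ) ≤ Real.log Y ^ (15 / 8 : ℝ) := by
        calc (yy κ Y : ℝ) ^ (3 / 4 : ℝ) ≤ (Real.log Y ^ (2 + 1 / 2 : ℝ)) ^ (3 / 4 : ℝ) :=
              Real.rpow_le_rpow (Nat.cast_nonneg _) h4.1 (by norm_num)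
          _ = _ := by rw [← Real.rpow_mul hL0.le]; norm_num
      have b2 : (yy κ Y : ℝ) ^ (1 / u) ≤ Real.log Y ^ (3 : ℝ) := by
        calc (yy κ Y : ℝ) ^ (1 / u) ≤ (Real.log Y ^ (2 + 1 / 2 : ℝ)) ^ (1 / u) :=
              Real.rpow_le_rpow (Nat.cast_nonneg _) h4.1 (by positivity)
          _ = Real.log Y ^ ((2 + 1 / 2 : ℝ) * (1 / u)) := by rw [← Real.rpow_mul hL0.le]
          _ ≤ _ := by
            refine Real.rpow_le_rpow_of_exponent_le h3 ?_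
            have h9 : 1 / u ≤ 1 := by rw [div_le_one (by linarith)]; linarith
            linarith
      have b3 : MM ⌊(yy κ Y : ℝ) ^ (1 / u)⌋₊ / MM ⌊Real.log Y ^ (θ * (1 - η))⌋₊ ≤
          MM ⌊Real.log Y ^ (3 : ℝ)⌋₊ := by
        rw [div_le_iff₀ h7]
        have h9 : MM ⌊(yy κ Y : ℝ) ^ (1 / u)⌋₊ ≤ MM ⌊Real.log Y ^ (3 : ℝ)⌋₊ :=
          MM_mono (Nat.floor_le_floor b2)
        have h10 := Mpos ⌊Real.log Y ^ (3 : ℝ)⌋₊
        nlinarith
      have b4 : Real.log Y ^ (15 / 8 : ℝ) * (Real.log Y ^ (1 / 16 : ℝ)) ^ 2 = Real.log Y ^ 2 := by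
        rw [← Real.rpow_natCast, ← Real.rpow_mul hL0.le, ← Real.rpow_add hL0, ← Real.rpow_natCast]
        norm_num
      have h16 : 0 < Real.log Y ^ (1 / 16 : ℝ) := by positivity
      calc (yy κ Y : ℝ) ^ (3 / 4 : ℝ) * TP (z ⌊Real.log Y ^ (2 - δ)⌋₊) *
            (MM ⌊(yy κ Y : ℝ) ^ (1 / u)⌋₊ / MM ⌊Real.log Y ^ (θ * (1 - η))⌋₊) *
            ((1 + τ) ^ 2 * (MM (z (2 * Y)) / Real.log Y)) / Real.log Y
          ≤ Real.log Y ^ (15 / 8 : ℝ) * 1 * MM ⌊Real.log Y ^ (3 : ℝ)⌋₊ *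
            ((1 + τ) ^ 2 * (MM (z (2 * Y)) / Real.log Y)) / Real.log Y := by gcongr
        _ = (1 + τ) ^ 2 * (MM ⌊Real.log Y ^ (3 : ℝ)⌋₊ * MM (z (2 * Y)) *
            (Real.log Y ^ (15 / 8 : ℝ) / Real.log Y ^ 2)) := by field_simp
        _ = (1 + τ) ^ 2 * (MM ⌊Real.log Y ^ (3 : ℝ)⌋₊ * MM (z (2 * Y)) *
            (1 / (Real.log Y ^ (1 / 16 : ℝ)) ^ 2)) := by
              rw [← b4]
              have : 0 < Real.log Y ^ (15 / 8 : ℝ) := by positivity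
              field_simp
        _ = _ := by field_simp
  have htot := ((hq.const_mul 2).const_add 1).mul ((hT1.add hT2).add hT3)
  have hval : (1 + 2 * 0) * (0 + (1 + τ) ^ 4 * (2 / (2 - δ)) * (1 / (1 - η)) * (κ * cc u) + 0) =
      (1 + τ) ^ 4 * (2 / (2 - δ)) * (1 / (1 - η)) * (κ * cc u) := by ring
  rw [hval] at htot
  filter_upwards [htot.eventually_le_const hfin, tlog.eventually_gt_atTop 0] with Y h1 h2
  unfold Num
  rw [alg (Real.log Y) _ _ _ _ _ _ h2.ne']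
  exact mul_le_mul_of_nonneg_right h1 h2.le

end Pool.Agent.H95.GG.T.NUM
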