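import Pool.Agent.H95.GG.Stm

/-!
# Candidates in prescribed residue classes
-/

set_option autoImplicit false

namespace Pool.Agent.H95.GG.T.POSG

open Pool.Agent.H95.GG Finset

lemma primorial_pos' (v : ℕ) : 0 < primorial v := primorial_pos v

lemma prime_dvd_primorial {p v : ℕ} (hp : p.Prime) (h : p ≤ v) : p ∣ primorial v := by
  unfold primorial
  exact Finset.dvd_prod_of_mem (fun p => p) (by simp [hp]; omega)

theorem main : S_POSG := by
  intro v Y Z y J a hZ
  obtain ⟨c, hc⟩ : ∃ c : ℕ, ∀ p : ℕ, p.Prime → p ≤ v → c % p = a p % p := by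
    let t : Finset ℕ := (Finset.range (v + 1)).filter Nat.Prime
    have h := Nat.chineseRemainderOfFinset (fun p => a p) (fun p => p) t
      (fun p hp => (Finset.mem_filter.1 hp).2.ne_zero)
      (fun p hp q hq hpq => (Nat.coprime_primes (Finset.mem_filter.1 hp).2
        (Finset.mem_filter.1 hq).2).2 hpq)
    refine ⟨h.1, fun p hp hpv => ?_⟩
    exact h.2 p (Finset.mem_filter.2 ⟨Finset.mem_range.2 (by omega), hp⟩)
  obtain ⟨Q, hQ⟩ : ∃ Q, Q = primorial v := ⟨_, rfl⟩
  have hQ0 : 0 < Q := hQ ▸ primorial_pos v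
  rw [← hQ] at hZ
  -- the first candidate
  obtain ⟨N₀, h1, h2, h3⟩ : ∃ N₀ : ℕ, Y < N₀ ∧ N₀ ≤ Y + Q ∧ N₀ % Q = c % Q := by
    have hlt : c % Q < Q := Nat.mod_lt _ hQ0
    have hlt' : Y % Q < Q := Nat.mod_lt _ hQ0
    have hY := Nat.div_add_mod Y Q
    by_cases h : Y % Q < c % Q
    · refine ⟨Q * (Y / Q) + c % Q, by omega, by omega, ?_⟩
      rw [Nat.mul_add_mod, Nat.mod_mod]
    · refine ⟨Q * (Y / Q + 1) + c % Q, ?_, ?_, ?_⟩
      · rw [Nat.mul_add]; omega
      · rw [Nat.mul_add]; omega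
      · rw [Nat.mul_add_mod, Nat.mod_mod]
  have hinj : Function.Injective (fun j : ℕ => N₀ + j * (Q * (y + 1))) := by
    intro i j hij
    have : i * (Q * (y + 1)) = j * (Q * (y + 1)) := by simpa using hij
    exact Nat.eq_of_mul_eq_mul_right (by positivity) this
  refine ⟨(Finset.range J).map ⟨_, hinj⟩, by simp, ?_, ?_⟩
  · intro N hN
    obtain ⟨j, hj, rfl⟩ := Finset.mem_map.1 hN
    have hj' : j < J := Finset.mem_range.1 hj
    simp only [Function.Embedding.coeFn_mk]
    have hle : (j + 1) * (Q * (y + 1)) ≤ J * (Q * (y + 1)) := Nat.mul_le_mul_right _ hj'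
    have hQy : Q ≤ Q * (y + 1) := Nat.le_mul_of_pos_right _ (by omega)
    have hexp : (j + 1) * (Q * (y + 1)) = j * (Q * (y + 1)) + Q * (y + 1) := by ring
    refine ⟨by omega, by omega, fun p hp hpv => ?_⟩
    have hpQ : p ∣ Q := hQ ▸ prime_dvd_primorial hp hpv
    have h4 : N₀ % p = c % p := by
      have := congrArg (· % p) h3
      simpa [Nat.mod_mod_of_dvd _ hpQ] using this
    have h5 : (N₀ + j * (Q * (y + 1))) % p = N₀ % p := by
      obtain ⟨m, hm⟩ := hpQ
      have : j * (Q * (y + 1)) = p * (j * (m * (y + 1))) := by rw [hm]; ring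
      rw [this, Nat.add_mul_mod_self_left]
    rw [h5, h4, hc p hp hpv]
  · intro N hN N' hN' hlt
    obtain ⟨j, hj, rfl⟩ := Finset.mem_map.1 hN
    obtain ⟨j', hj', rfl⟩ := Finset.mem_map.1 hN'
    simp only [Function.Embedding.coeFn_mk] at hlt ⊢
    have hpos : 0 < Q * (y + 1) := by positivity
    have hjj : j < j' := by
      by_contra hcon
      have : j' * (Q * (y + 1)) ≤ j * (Q * (y + 1)) := Nat.mul_le_mul_right _ (by omega)
      omega
    have hle : (j + 1) * (Q * (y + 1)) ≤ j' * (Q * (y + 1)) := Nat.mul_le_mul_right _ hjj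
    have hexp : (j + 1) * (Q * (y + 1)) = j * (Q * (y + 1)) + Q * (y + 1) := by ring
    have hQy : y + 1 ≤ Q * (y + 1) := Nat.le_mul_of_pos_left _ hQ0
    omega

end Pool.Agent.H95.GG.T.POSG
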