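import Pool.Agent.H95.GG.Stm

set_option autoImplicit false

open MeasureTheory Filter ProbabilityTheory
open scoped Topology ENNReal

namespace Pool.Agent.H95.GG.T.PRB

open Pool.Agent.H50.BF (MM)
open Pool.Agent.H50.GW (Rou)

lemma MM_pos (N : ℕ) : 0 < MM N := by
  unfold MM
  refine Finset.prod_pos fun p hp => ?_
  have h := (Finset.mem_filter.1 hp).2
  have h1 : (1 : ℝ) < p := by exact_mod_cast h.one_lt
  have h2 : (p : ℝ)⁻¹ < 1 := inv_lt_one_of_one_lt₀ h1
  exact inv_pos.2 (by linarith)

theorem main : S_PRB := by
  intro Ω _ P A z θ h τ hτ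
  have h1 := h.dens.eventually_le_const (show (1 : ℝ) < 1 + τ by linarith)
  rw [eventually_inf_principal] at h1
  filter_upwards [h1, eventually_ge_atTop 2] with n hn h2
  have hlog : 0 < Real.log n := Real.log_pos (by exact_mod_cast h2)
  have hM := MM_pos (z n)
  by_cases hr : Rou (z n) n
  · have h3 := hn hr
    have e : P.real (A n) = (P (A n)).toReal * (Real.log n / MM (z n)) * (MM (z n) / Real.log n) := by
      rw [Measure.real]; field_simp
    rw [e]
    exact mul_le_mul_of_nonneg_right h3 (by positivity)
  · rw [h.empty n hr, measureReal_empty]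
    positivity

end Pool.Agent.H95.GG.T.PRB
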