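import Pool.Agent.H95.GG.Stm
import Pool.Agent.H50.G.B.R301.GM.Irr

/-!
# Project GG, stub ROU: integers without small prime factors
-/

set_option autoImplicit false

open Filter
open scoped Topology

namespace Pool.Agent.H95.GG.T.ROU

open Pool.Agent.H50.BF (MM)
open Pool.Agent.H50.GW (Rou)
open Pool.Agent.R529.BU (om)

theorem ru_eq (v x : ℕ) : ru v x = (Pool.Agent.R529.BU.RR (x : ℝ) (v : ℝ)).card := by
  classical
  unfold ru Pool.Agent.R529.BU.RR
  rw [Nat.floor_natCast]
  congr 1
  apply Finset.filter_congr
  intro m _
  unfold Rou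
  constructor
  · intro h p hp hd
    by_contra hlt
    push Not at hlt
    exact h p hp (by exact_mod_cast hlt) hd
  · intro h p hp hle hd
    have h1 := h p hp hd
    have h2 : v < p := by exact_mod_cast h1
    omega

theorem main : S_ROU := by
  intro u hu
  have hu0 : 0 < u := by linarith
  have h := Pool.Agent.R301.GM.rho (t := 1 / u) (u := u) (c := 0) (by positivity) hu
  have h2 := h.comp tendsto_natCast_atTop_atTop
  refine h2.congr fun x => ?_
  have e : 1 / u * u = 1 := by field_simp
  simp only [Function.comp]
  rw [e, add_zero, Real.rpow_one, ru_eq]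
  rfl

end Pool.Agent.H95.GG.T.ROU
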