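import Pool.Agent.H95.GG.Stm

set_option autoImplicit false

/-! # GG-SID: the side conditions (helper85) -/

open MeasureTheory Filter ProbabilityTheory
open scoped Topology ENNReal

namespace Pool.Agent.H95.GG.T.SID

open Pool.Agent.H95.GG
open Pool.Agent.H50.BF (MM)
open Pool.Agent.H50.GW (Rou)

theorem MM_pos (n : ℕ) : 0 < MM n := by
  unfold MM
  refine Finset.prod_pos fun p hp => ?_
  have hp' := (Finset.mem_filter.1 hp).2
  have h1 : (1 : ℝ) < p := by exact_mod_cast hp'.one_lt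
  have h2 : (p : ℝ)⁻¹ < 1 := inv_lt_one_of_one_lt₀ h1
  exact inv_pos.2 (by linarith)

theorem MM_mono : Monotone MM := by
  intro a b hab
  unfold MM
  have hsub : (Finset.Icc 1 a).filter Nat.Prime ⊆ (Finset.Icc 1 b).filter Nat.Prime :=
    Finset.filter_subset_filter _ (Finset.Icc_subset_Icc_right hab)
  rw [← Finset.prod_sdiff hsub]
  have h1 : (1 : ℝ) ≤ ∏ p ∈ (Finset.Icc 1 b).filter Nat.Prime \ (Finset.Icc 1 a).filter Nat.Prime,
      (1 - (p : ℝ)⁻¹)⁻¹ := by
    have h2 : ∀ p ∈ (Finset.Icc 1 b).filter Nat.Prime \ (Finset.Icc 1 a).filter Nat.Prime,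
        (1 : ℝ) ≤ (1 - (p : ℝ)⁻¹)⁻¹ := by
      intro p hp
      have hp' := (Finset.mem_filter.1 (Finset.mem_sdiff.1 hp).1).2
      have h1 : (1 : ℝ) < p := by exact_mod_cast hp'.one_lt
      have h2 : (p : ℝ)⁻¹ < 1 := inv_lt_one_of_one_lt₀ h1
      have h3 : 0 < (p : ℝ)⁻¹ := by positivity
      exact (one_le_inv₀ (by linarith)).2 (by linarith)
    calc (1 : ℝ) = ∏ p ∈ (Finset.Icc 1 b).filter Nat.Prime \ (Finset.Icc 1 a).filter Nat.Prime, (1 : ℝ) := by simp
      _ ≤ _ := Finset.prod_le_prod (fun _ _ => zero_le_one) h2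
  have h3 := MM_pos a
  unfold MM at h3
  nlinarith

theorem hL : Tendsto (fun Y : ℕ => Real.log Y) atTop atTop :=
  Real.tendsto_log_atTop.comp tendsto_natCast_atTop_atTop

theorem hLL : Tendsto (fun Y : ℕ => Real.log (Real.log Y)) atTop atTop :=
  Real.tendsto_log_atTop.comp hL

/-- upper bound for `z` -/
theorem z_le {z : ℕ → ℕ} {θ a : ℝ} (h : Tendsto (fun n : ℕ => Real.log (z n) / Real.log (Real.log n)) atTop (𝓝 θ))
    (ha : θ < a) : ∀ᶠ n : ℕ in atTop, (z n : ℝ) ≤ Real.log n ^ a := by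
  filter_upwards [h.eventually_lt_const ha, hLL.eventually_gt_atTop 0, hL.eventually_gt_atTop 0] with n h1 h2 h3
  rw [div_lt_iff₀ h2] at h1
  rcases Nat.eq_zero_or_pos (z n) with h0 | h0
  · rw [h0]
    simp only [Nat.cast_zero]
    positivity
  · have h4 : (0 : ℝ) < z n := by exact_mod_cast h0
    rw [← Real.exp_log h4, Real.rpow_def_of_pos h3]
    apply Real.exp_le_exp.2
    linarith [mul_comm a (Real.log (Real.log n))]

/-- lower bound for `z` -/
theorem le_z {z : ℕ → ℕ} {θ a : ℝ} (h : Tendsto (fun n : ℕ => Real.log (z n) / Real.log (Real.log n)) atTop (𝓝 θ))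
    (ha0 : 0 < a) (ha : a < θ) : ∀ᶠ n : ℕ in atTop, Real.log n ^ a ≤ (z n : ℝ) := by
  filter_upwards [h.eventually_const_lt ha, hLL.eventually_gt_atTop 0, hL.eventually_gt_atTop 0] with n h1 h2 h3
  rw [lt_div_iff₀ h2] at h1
  have h0 : 0 < Real.log (z n) := lt_trans (by positivity) h1
  have h4 : (0 : ℝ) < z n := by
    rcases Nat.eq_zero_or_pos (z n) with h5 | h5
    · rw [h5] at h0; simp at h0
    · exact_mod_cast h5
  rw [← Real.exp_log h4, Real.rpow_def_of_pos h3]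
  apply Real.exp_le_exp.2
  linarith [mul_comm a (Real.log (Real.log n))]

theorem ev_log_pow (a b : ℝ) (hb : 0 < b) : ∀ᶠ x : ℝ in atTop, (2 * Real.log x) ^ a ≤ x ^ b := by
  have h := (isLittleO_log_rpow_rpow_atTop (s := b / 2) a (by positivity)).bound (show (0 : ℝ) < 1 by norm_num)
  have h2 := (tendsto_rpow_atTop (show 0 < b / 2 by positivity)).eventually_ge_atTop ((2 : ℝ) ^ a)
  filter_upwards [h, h2, Real.tendsto_log_atTop.eventually_ge_atTop 1, eventually_gt_atTop 0] with x h3 h4 h5 h6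
  rw [Real.norm_of_nonneg (by positivity), Real.norm_of_nonneg (by positivity), one_mul] at h3
  rw [Real.mul_rpow (by norm_num) (by linarith)]
  calc (2 : ℝ) ^ a * Real.log x ^ a ≤ x ^ (b / 2) * x ^ (b / 2) := mul_le_mul h4 h3 (by positivity) (by positivity)
    _ = x ^ b := by rw [← Real.rpow_add h6]; ring_nf

theorem main (hM : S_MMZ) (hYY : S_YY) (hPRB : S_PRB) : S_SID := by
  classical
  intro Ω _ P A z θ hG hθ hθ1 u κ ε hu hκ hε
  have hu0 : 0 < u := lt_trans (by positivity) hu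
  have huθ : 2 < u * θ := by rwa [div_lt_iff₀ hθ] at hu
  obtain ⟨c, hc⟩ : ∃ c : ℝ, c = min (1 / 2) ((1 - 2 / (u * θ)) / 2) := ⟨_, rfl⟩
  have h2u : 2 / (u * θ) < 1 := by rw [div_lt_one (by positivity)]; exact huθ
  have hc0 : 0 < c := by rw [hc]; exact lt_min (by norm_num) (by linarith)
  have hc1 : c ≤ 1 / 2 := by rw [hc]; exact min_le_left _ _
  have hc2 : c < 1 - 2 / (u * θ) := by
    rw [hc]; exact lt_of_le_of_lt (min_le_right _ _) (by linarith)
  refine ⟨c, hc0, by linarith, fun δ η τ hδ hδc hη hηc hτ hτc => ?_⟩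
  obtain ⟨hM1, -⟩ := hM Ω P A z θ hG hθ
  obtain ⟨y1, -, -, -, y5, y6⟩ := hYY κ hκ
  obtain ⟨w1, -, -⟩ := y6 (2 - δ) (by linarith) (by linarith)
  have hprb := hPRB Ω P A z θ hG τ hτ
  have hth : 0 < θ * (1 - η) := mul_pos hθ (by linarith)
  have hη1 : η < 1 - 2 / (u * θ) := lt_of_le_of_lt hηc hc2
  -- the exponent for the third clause
  have hexp : 2 / u < θ * (1 - η) := by
    have h1 : 2 / (u * θ) < 1 - η := by linarith
    have h2 := mul_lt_mul_of_pos_left h1 hθ
    have h3 : θ * (2 / (u * θ)) = 2 / u := by field_simp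
    rwa [h3] at h2
  obtain ⟨c', hc'⟩ : ∃ c' : ℝ, c' = u * (θ * (1 - η)) - 2 := ⟨_, rfl⟩
  have hc'0 : 0 < c' := by
    rw [div_lt_iff₀ hu0] at hexp
    rw [hc']; linarith [mul_comm u (θ * (1 - η))]
  have hc'2 : (2 + c') * (1 / u) = θ * (1 - η) := by
    rw [hc']; field_simp; ring
  have hYinf : Tendsto (fun Y : ℕ => Y) atTop atTop := tendsto_id
  have h2Y : Tendsto (fun Y : ℕ => 2 * Y) atTop atTop :=
    tendsto_atTop_mono (fun Y => by show Y ≤ 2 * Y; omega) tendsto_id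
  -- E1
  have E1 : ∀ᶠ Y : ℕ in atTop, 2 ≤ z ⌊Real.log Y ^ (2 - δ)⌋₊ := ((hM1 _ w1).1).eventually_ge_atTop 2
  -- E2
  have E2 : ∀ᶠ Y : ℕ in atTop, z ⌊Real.log Y ^ (2 - δ)⌋₊ ≤ ⌊(yy κ Y : ℝ) ^ (1 / u)⌋₊ := by
    have h1 := w1.eventually (z_le hG.lev (show θ < θ + 1 by linarith))
    have h2 := hL.eventually (ev_log_pow (θ + 1) (2 / u) (by positivity))
    filter_upwards [h1, h2, y5 1 one_pos, hL.eventually_ge_atTop 1,
      (tendsto_natCast_atTop_atTop.comp w1).eventually_ge_atTop (1 : ℝ)] with Y g1 g2 g3 g4 g5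
    apply Nat.le_floor
    refine g1.trans ?_
    have g5' : (1 : ℝ) ≤ (⌊Real.log Y ^ (2 - δ)⌋₊ : ℝ) := g5
    have g6 : Real.log (⌊Real.log Y ^ (2 - δ)⌋₊ : ℝ) ≤ 2 * Real.log (Real.log Y) := by
      have h3 : (⌊Real.log Y ^ (2 - δ)⌋₊ : ℝ) ≤ Real.log Y ^ (2 : ℝ) :=
        (Nat.floor_le (by positivity)).trans (Real.rpow_le_rpow_of_exponent_le g4 (by linarith))
      calc Real.log (⌊Real.log Y ^ (2 - δ)⌋₊ : ℝ) ≤ Real.log (Real.log Y ^ (2 : ℝ)) :=
            Real.log_le_log (by linarith) h3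
        _ = 2 * Real.log (Real.log Y) := Real.log_rpow (by linarith) _
    calc Real.log (⌊Real.log Y ^ (2 - δ)⌋₊ : ℝ) ^ (θ + 1) ≤ (2 * Real.log (Real.log Y)) ^ (θ + 1) :=
          Real.rpow_le_rpow (Real.log_nonneg g5') g6 (by linarith)
      _ ≤ Real.log Y ^ (2 / u) := g2
      _ = (Real.log Y ^ 2) ^ (1 / u) := by
          rw [← Real.rpow_natCast, ← Real.rpow_mul (by linarith)]
          norm_num
          ring_nf
      _ ≤ (yy κ Y : ℝ) ^ (1 / u) := Real.rpow_le_rpow (by positivity) g3.2 (by positivity)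
  -- E3
  have E3 : ∀ᶠ Y : ℕ in atTop, ⌊(yy κ Y : ℝ) ^ (1 / u)⌋₊ ≤ ⌊Real.log Y ^ (θ * (1 - η))⌋₊ := by
    filter_upwards [y5 c' hc'0, hL.eventually_ge_atTop 1] with Y g1 g2
    apply Nat.floor_le_floor
    calc (yy κ Y : ℝ) ^ (1 / u) ≤ (Real.log Y ^ (2 + c')) ^ (1 / u) :=
          Real.rpow_le_rpow (Nat.cast_nonneg _) g1.1 (by positivity)
      _ = Real.log Y ^ (θ * (1 - η)) := by rw [← Real.rpow_mul (by linarith), hc'2]
  -- E5
  have E5 : ∀ᶠ Y : ℕ in atTop, 2 * yy κ Y < Y := by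
    have h1 := (isLittleO_log_rpow_rpow_atTop (s := 1) 3 one_pos).bound (show (0 : ℝ) < 1 / 4 by norm_num)
    have h2 := tendsto_natCast_atTop_atTop (R := ℝ) |>.eventually h1
    filter_upwards [h2, y5 1 one_pos, hL.eventually_ge_atTop 1, eventually_ge_atTop 1] with Y g1 g2 g3 g4
    rw [Real.norm_of_nonneg (by positivity), Real.rpow_one, Real.norm_of_nonneg (by positivity)] at g1
    have g5 : (0 : ℝ) < Y := by exact_mod_cast g4
    have e : (2 : ℝ) + 1 = 3 := by norm_num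
    rw [e] at g2
    have g6 : (2 : ℝ) * (yy κ Y : ℝ) < Y := by linarith [g2.1]
    exact_mod_cast g6
  -- `log (Y - y)`
  have EL : ∀ᶠ Y : ℕ in atTop, ∀ m : ℕ, Y - yy κ Y ≤ m → Real.log Y / (1 + τ) ≤ Real.log m ∧
      Real.log Y / 2 ≤ Real.log m := by
    filter_upwards [E5, hL.eventually_ge_atTop (max (Real.log 2 * (1 + τ) / τ) (2 * Real.log 2)),
      eventually_ge_atTop 2] with Y g1 g2 g3 m hm
    have g4 : (0 : ℝ) < Y := by
      have : 0 < Y := by omega
      exact_mod_cast this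
    have g5 : (Y : ℝ) / 2 ≤ m := by
      have : Y ≤ 2 * m := by omega
      have h : (Y : ℝ) ≤ 2 * m := by exact_mod_cast this
      linarith
    have g6 : Real.log Y - Real.log 2 ≤ Real.log m := by
      rw [← Real.log_div g4.ne' (by norm_num)]
      exact Real.log_le_log (by positivity) g5
    have g7 := (le_max_left _ _).trans g2
    have g8 := (le_max_right _ _).trans g2
    rw [div_le_iff₀ hτ] at g7
    constructor
    · rw [div_le_iff₀ (by linarith)]
      nlinarith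
    · linarith
  -- E4
  have E4 : ∀ᶠ Y : ℕ in atTop, ⌊Real.log Y ^ (θ * (1 - η))⌋₊ ≤ z (Y - yy κ Y) := by
    have hsub : Tendsto (fun Y : ℕ => Y - yy κ Y) atTop atTop := by
      refine tendsto_atTop_mono' _ (f₁ := fun Y : ℕ => Y / 2) ?_ (Nat.tendsto_div_const_atTop (by norm_num))
      filter_upwards [E5] with Y g
      omega
    have h1 := hsub.eventually (le_z hG.lev (a := θ * (1 - η / 2))
      (mul_pos hθ (by linarith)) (by nlinarith))
    have h2 := (tendsto_rpow_atTop (show 0 < θ * η / 2 by positivity)).comp hL |>.eventually_ge_atTop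
      ((2 : ℝ) ^ (θ * (1 - η / 2)))
    filter_upwards [h1, h2, EL, hL.eventually_ge_atTop 1] with Y g1 g2 g3 g4
    have g5 := (g3 (Y - yy κ Y) le_rfl).2
    have g6 : Real.log Y ^ (θ * (1 - η)) ≤ (z (Y - yy κ Y) : ℝ) := by
      refine le_trans ?_ g1
      refine le_trans ?_ (Real.rpow_le_rpow (by positivity) g5 (by
        have : 0 < θ * (1 - η / 2) := mul_pos hθ (by linarith)
        exact this.le))
      rw [Real.div_rpow (by linarith) (by norm_num), le_div_iff₀ (by positivity)]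
      have e : Real.log Y ^ (θ * (1 - η / 2)) = Real.log Y ^ (θ * (1 - η)) * Real.log Y ^ (θ * η / 2) := by
        rw [← Real.rpow_add (by linarith)]
        congr 1
        ring
      rw [e]
      exact mul_le_mul_of_nonneg_left g2 (by positivity)
    exact (Nat.floor_le_floor g6).trans (by rw [Nat.floor_natCast])
  -- E8
  have hq : Tendsto (fun Y : ℕ => (1 + τ) ^ 2 * (MM (z (2 * Y)) / Real.log Y)) atTop (𝓝 0) := by
    have h1 := (hM1 _ h2Y).2
    have h2 : Tendsto (fun Y : ℕ => Real.log (Real.log ((2 * Y : ℕ) : ℝ)) / Real.log Y) atTop (𝓝 0) := by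
      have h3 : Tendsto (fun x : ℝ => Real.log x / x) atTop (𝓝 0) := by
        have := Real.isLittleO_log_id_atTop.tendsto_div_nhds_zero
        exact this
      have h4 : Tendsto (fun Y : ℕ => Real.log (Real.log ((2 * Y : ℕ) : ℝ)) / Real.log ((2 * Y : ℕ) : ℝ)) atTop
          (𝓝 0) := (h3.comp hL).comp h2Y
      have h5 : Tendsto (fun Y : ℕ => Real.log ((2 * Y : ℕ) : ℝ) / Real.log Y) atTop (𝓝 1) := by
        have h6 : Tendsto (fun Y : ℕ => 1 + Real.log 2 / Real.log Y) atTop (𝓝 (1 + 0)) :=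
          tendsto_const_nhds.add (tendsto_const_nhds.div_atTop hL)
        rw [add_zero] at h6
        refine h6.congr' ?_
        filter_upwards [hL.eventually_gt_atTop 0, eventually_ge_atTop 1] with Y g1 g2
        have g3 : (0 : ℝ) < Y := by exact_mod_cast g2
        push_cast
        rw [Real.log_mul (by norm_num) g3.ne']
        field_simp
        ring
      have h7 := h4.mul h5
      rw [zero_mul] at h7
      refine h7.congr' ?_
      filter_upwards [(hL.comp h2Y).eventually_gt_atTop 0, hL.eventually_gt_atTop 0] with Y g1 g2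
      have g1' : 0 < Real.log ((2 * Y : ℕ) : ℝ) := g1
      field_simp
    have h3 := ((h1.mul h2).const_mul ((1 + τ) ^ 2))
    rw [mul_zero, mul_zero] at h3
    refine h3.congr' ?_
    filter_upwards [(hLL.comp h2Y).eventually_gt_atTop 0, hL.eventually_gt_atTop 0] with Y g1 g2
    have g1' : 0 < Real.log (Real.log ((2 * Y : ℕ) : ℝ)) := g1
    field_simp
  have E8 := hq.eventually (ge_mem_nhds (show (0 : ℝ) < 1 / 2 by norm_num))
  -- E10
  have E10 : ∀ᶠ Y : ℕ in atTop,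
      (4 : ℝ) ^ ⌊Real.log Y ^ (θ * (1 - η))⌋₊ * (yy κ Y + 1) ≤ (Y : ℝ) ^ ε := by
    have h1 : ∀ᶠ x : ℝ in atTop, x ^ (θ * (1 - η)) * Real.log 4 + 4 * Real.log x ≤ ε * x := by
      have hlt : θ * (1 - η) < 1 := by nlinarith
      have h2 := (tendsto_rpow_neg_atTop (show 0 < 1 - θ * (1 - η) by linarith)).eventually
        (ge_mem_nhds (show (0 : ℝ) < ε / 4 by positivity))
      have h3 := Real.isLittleO_log_id_atTop.bound (show (0 : ℝ) < ε / 8 by positivity)
      have hlog4 : Real.log 4 ≤ 2 := by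
        have : Real.log 4 = 2 * Real.log 2 := by
          rw [show (4 : ℝ) = 2 ^ 2 by norm_num, Real.log_pow]; norm_num
        rw [this]
        linarith [Real.log_two_lt_d9]
      filter_upwards [h2, h3, eventually_ge_atTop 1] with x g1 g2 g3
      replace g1 : x ^ (θ * (1 - η)) ≤ ε / 4 * x := by
        have e : x ^ (θ * (1 - η)) = x ^ (-(1 - θ * (1 - η))) * x := by
          conv_rhs => rw [← Real.rpow_one x, ← Real.rpow_mul (by linarith), ← Real.rpow_add (by linarith)]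
          congr 1
          ring
        rw [e]
        exact mul_le_mul_of_nonneg_right g1 (by linarith)
      rw [Real.norm_of_nonneg (Real.log_nonneg g3), id, Real.norm_of_nonneg (by linarith)] at g2
      have g4 : 0 ≤ x ^ (θ * (1 - η)) := by positivity
      have g5 : x ^ (θ * (1 - η)) * Real.log 4 ≤ x ^ (θ * (1 - η)) * 2 := mul_le_mul_of_nonneg_left hlog4 g4
      linarith
    filter_upwards [hL.eventually h1, y5 1 one_pos, hL.eventually_ge_atTop 2, eventually_ge_atTop 1] with Y g1 g2 g3 g4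
    have g5 : (0 : ℝ) < Y := by exact_mod_cast g4
    obtain ⟨l, hl⟩ : ∃ l, l = Real.log Y := ⟨_, rfl⟩
    rw [← hl] at g1 g2 g3 ⊢
    have hl0 : 0 < l := by linarith
    have e1 : (4 : ℝ) ^ ⌊l ^ (θ * (1 - η))⌋₊ ≤ Real.exp (l ^ (θ * (1 - η)) * Real.log 4) := by
      rw [← Real.rpow_natCast, Real.rpow_def_of_pos (by norm_num), mul_comm]
      apply Real.exp_le_exp.2
      exact mul_le_mul_of_nonneg_right (Nat.floor_le (by positivity)) (Real.log_nonneg (by norm_num))
    have e2 : (yy κ Y : ℝ) + 1 ≤ Real.exp (4 * Real.log l) := by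
      have h3 : Real.exp (4 * Real.log l) = l ^ 4 := by
        rw [show (4 : ℝ) * Real.log l = ((4 : ℕ) : ℝ) * Real.log l by norm_num, ← Real.log_pow,
          Real.exp_log (by positivity)]
      have h4 : (yy κ Y : ℝ) ≤ l ^ 3 := by
        have := g2.1
        have e : (2 : ℝ) + 1 = ((3 : ℕ) : ℝ) := by norm_num
        rw [e, Real.rpow_natCast] at this
        exact this
      rw [h3]
      have h5 : (1 : ℝ) ≤ l ^ 3 := one_le_pow₀ (by linarith)
      have h6 : l ^ 4 = l * l ^ 3 := by ring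
      nlinarith
    calc (4 : ℝ) ^ ⌊l ^ (θ * (1 - η))⌋₊ * (yy κ Y + 1)
        ≤ Real.exp (l ^ (θ * (1 - η)) * Real.log 4) * Real.exp (4 * Real.log l) :=
          mul_le_mul e1 e2 (by positivity) (Real.exp_pos _).le
      _ = Real.exp (l ^ (θ * (1 - η)) * Real.log 4 + 4 * Real.log l) := (Real.exp_add _ _).symm
      _ ≤ Real.exp (ε * l) := Real.exp_le_exp.2 g1
      _ = (Y : ℝ) ^ ε := by rw [Real.rpow_def_of_pos g5, ← hl, mul_comm]
  -- E11
  have E11 : ∀ᶠ Y : ℕ in atTop, 2 * Real.log Y ≤ (yy κ Y : ℝ) ^ (3 / 4 : ℝ) * Real.log (1 + τ) := by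
    have hlt : 0 < Real.log (1 + τ) := Real.log_pos (by linarith)
    have h1 := ((tendsto_rpow_atTop (show (0 : ℝ) < 1 / 2 by norm_num)).comp hL).eventually_ge_atTop
      (2 / Real.log (1 + τ))
    filter_upwards [h1, y5 1 one_pos, hL.eventually_ge_atTop 1] with Y g1 g2 g3
    have g1' : 2 / Real.log (1 + τ) ≤ Real.log Y ^ (1 / 2 : ℝ) := g1
    rw [div_le_iff₀ hlt] at g1'
    have g4 : Real.log Y ^ (3 / 2 : ℝ) ≤ (yy κ Y : ℝ) ^ (3 / 4 : ℝ) := by
      calc Real.log Y ^ (3 / 2 : ℝ) = (Real.log Y ^ 2) ^ (3 / 4 : ℝ) := by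
            rw [← Real.rpow_natCast, ← Real.rpow_mul (by linarith)]
            norm_num
        _ ≤ _ := Real.rpow_le_rpow (by positivity) g2.2 (by norm_num)
    have g5 : Real.log Y ^ (3 / 2 : ℝ) = Real.log Y * Real.log Y ^ (1 / 2 : ℝ) := by
      rw [show (3 / 2 : ℝ) = 1 + 1 / 2 by norm_num, Real.rpow_add (by linarith), Real.rpow_one]
    calc 2 * Real.log Y ≤ (Real.log Y ^ (1 / 2 : ℝ) * Real.log (1 + τ)) * Real.log Y :=
          mul_le_mul_of_nonneg_right g1' (by linarith)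
      _ = Real.log Y ^ (3 / 2 : ℝ) * Real.log (1 + τ) := by rw [g5]; ring
      _ ≤ _ := mul_le_mul_of_nonneg_right g4 hlt.le
  -- the probabilities
  obtain ⟨m₀, hm₀⟩ := eventually_atTop.1 hprb
  have E6 : ∀ᶠ Y : ℕ in atTop, ∀ m : ℕ, Y - yy κ Y ≤ m → m ≤ 2 * Y →
        P.real (A m) ≤ (1 + τ) ^ 2 * (MM (z (2 * Y)) / Real.log Y) := by
    filter_upwards [EL, E5, eventually_ge_atTop (2 * m₀), hL.eventually_ge_atTop 1] with Y g1 g2 g3 g4 m hm hm2
    have g5 : m₀ ≤ m := by omega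
    have g6 := hm₀ m g5
    have g7 := (g1 m hm).1
    have hLp : 0 < Real.log Y := by linarith
    have g8 : MM (z m) ≤ MM (z (2 * Y)) := MM_mono (hG.mono hm2)
    have g9 : 0 < Real.log Y / (1 + τ) := by positivity
    have g10 : MM (z m) / Real.log m ≤ MM (z (2 * Y)) / (Real.log Y / (1 + τ)) :=
      div_le_div₀ (MM_pos _).le g8 g9 g7
    calc P.real (A m) ≤ (1 + τ) * (MM (z m) / Real.log m) := g6
      _ ≤ (1 + τ) * (MM (z (2 * Y)) / (Real.log Y / (1 + τ))) := mul_le_mul_of_nonneg_left g10 (by linarith)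
      _ = (1 + τ) ^ 2 * (MM (z (2 * Y)) / Real.log Y) := by field_simp
  have E7 : ∀ᶠ Y : ℕ in atTop, 0 ≤ (1 + τ) ^ 2 * (MM (z (2 * Y)) / Real.log Y) := by
    filter_upwards [hL.eventually_gt_atTop 0] with Y g
    have := MM_pos (z (2 * Y))
    positivity
  have E9 : ∀ᶠ Y : ℕ in atTop, ∑ s ∈ (Finset.Ioc ⌊Real.log Y ^ (2 - δ)⌋₊ (yy κ Y)).filter
          (Rou ⌊(yy κ Y : ℝ) ^ (1 / u)⌋₊), P.real (A s) ≤
        (1 + τ) * (ru ⌊(yy κ Y : ℝ) ^ (1 / u)⌋₊ (yy κ Y)) *
          (MM (z (yy κ Y)) / Real.log ⌊Real.log Y ^ (2 - δ)⌋₊) := by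
    filter_upwards [w1.eventually_ge_atTop (max m₀ 2)] with Y g1
    have g2 := (le_max_left _ _).trans g1
    have g3 := (le_max_right _ _).trans g1
    set y1' := ⌊Real.log Y ^ (2 - δ)⌋₊ with hy1'
    set y := yy κ Y with hy
    set v := ⌊(y : ℝ) ^ (1 / u)⌋₊ with hv
    have hl1 : 0 < Real.log (y1' : ℝ) := Real.log_pos (by exact_mod_cast g3)
    have hterm : ∀ s ∈ (Finset.Ioc y1' y).filter (Rou v), P.real (A s) ≤
        (1 + τ) * (MM (z y) / Real.log y1') := by
      intro s hs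
      have hs' := Finset.mem_Ioc.1 (Finset.mem_filter.1 hs).1
      have a1 := hm₀ s (by omega)
      refine a1.trans (mul_le_mul_of_nonneg_left ?_ (by linarith))
      refine div_le_div₀ (MM_pos _).le (MM_mono (hG.mono hs'.2)) hl1 ?_
      refine Real.log_le_log ?_ ?_
      · have : 0 < y1' := by omega
        exact_mod_cast this
      · exact_mod_cast hs'.1.le
    refine (Finset.sum_le_sum hterm).trans ?_
    rw [Finset.sum_const, nsmul_eq_mul]
    have hcard : (((Finset.Ioc y1' y).filter (Rou v)).card : ℝ) ≤ ru v y := by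
      unfold ru
      have : (Finset.Ioc y1' y).filter (Rou v) ⊆ (Finset.Icc 1 y).filter (Rou v) := by
        intro s hs
        rw [Finset.mem_filter, Finset.mem_Ioc] at hs
        rw [Finset.mem_filter, Finset.mem_Icc]
        exact ⟨⟨by omega, hs.1.2⟩, hs.2⟩
      exact_mod_cast Finset.card_le_card this
    have hpos : 0 ≤ MM (z y) / Real.log y1' := div_nonneg (MM_pos _).le hl1.le
    calc (((Finset.Ioc y1' y).filter (Rou v)).card : ℝ) * ((1 + τ) * (MM (z y) / Real.log y1'))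
        ≤ (ru v y : ℝ) * ((1 + τ) * (MM (z y) / Real.log y1')) :=
          mul_le_mul_of_nonneg_right hcard (mul_nonneg (by linarith) hpos)
      _ = (1 + τ) * (ru v y : ℝ) * (MM (z y) / Real.log y1') := by ring
  filter_upwards [E1, E2, E3, E4, E5, E6, E7, E8, E9, E10, E11] with Y a1 a2 a3 a4 a5 a6 a7 a8 a9 a10 a11
  exact ⟨a1, a2, a3, a4, a5, a6, a7, a8, a9, a10, a11⟩

end Pool.Agent.H95.GG.T.SID
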