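import Pool.Agent.H95.GG.Stm

/-! # GG-SUP: the probability that all even `N ∈ (Y, Y + Z]` have a representation -/

set_option autoImplicit false

open MeasureTheory Filter ProbabilityTheory
open scoped Topology ENNReal

namespace Pool.Agent.H95.GG.T.SUP

open Pool.Agent.H95.GG
open Pool.Agent.H50.BF (MM)
open Pool.Agent.H50.GW (Rou)

open Classical in
/-- the elements `> y1` of the history without prime factor `≤ v` -/
noncomputable def SS (y1 v : ℕ) (H : Finset ℕ) : Finset ℕ := H.filter (fun s => y1 < s ∧ Rou v s)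

theorem mem_SS {y1 v : ℕ} {H : Finset ℕ} {s : ℕ} :
    s ∈ SS y1 v H ↔ s ∈ H ∧ y1 < s ∧ Rou v s := by
  classical
  unfold SS
  rw [Finset.mem_filter]

/-- the primes in `[3, w]` -/
def F1 (w : ℕ) : Finset ℕ := (Finset.Icc 3 w).filter Nat.Prime

/-- the primes in `(v, v2]` -/
def F2 (v v2 : ℕ) : Finset ℕ := (Finset.Ioc v v2).filter Nat.Prime

theorem mem_F1 {w p : ℕ} : p ∈ F1 w ↔ (3 ≤ p ∧ p ≤ w) ∧ p.Prime := by
  unfold F1
  rw [Finset.mem_filter, Finset.mem_Icc]

theorem mem_F2 {v v2 p : ℕ} : p ∈ F2 v v2 ↔ (v < p ∧ p ≤ v2) ∧ p.Prime := by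
  unfold F2
  rw [Finset.mem_filter, Finset.mem_Ioc]

theorem one_sub_inv_pos {p : ℕ} (hp : p.Prime) : 0 < 1 - (p : ℝ)⁻¹ := by
  have h2 : (2 : ℝ) ≤ p := by exact_mod_cast hp.two_le
  have : (p : ℝ)⁻¹ ≤ 2⁻¹ := inv_anti₀ (by norm_num) h2
  have h3 : (2 : ℝ)⁻¹ < 1 := by norm_num
  linarith

theorem MM_pos' (v : ℕ) : 0 < MM v := by
  unfold MM
  apply Finset.prod_pos
  intro p hp
  exact inv_pos.2 (one_sub_inv_pos (Finset.mem_filter.1 hp).2)

theorem MM_div {v v2 : ℕ} (h : v ≤ v2) :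
    ∏ p ∈ F2 v v2, (1 - 1 / (p : ℝ)) = MM v / MM v2 := by
  have hsplit : (Finset.Icc 1 v2).filter Nat.Prime =
      (Finset.Icc 1 v).filter Nat.Prime ∪ F2 v v2 := by
    ext p
    simp only [mem_F2, Finset.mem_union, Finset.mem_filter, Finset.mem_Icc]
    constructor
    · rintro ⟨⟨h1, h2⟩, h3⟩
      by_cases hp : p ≤ v
      · exact Or.inl ⟨⟨h1, hp⟩, h3⟩
      · exact Or.inr ⟨⟨by omega, h2⟩, h3⟩
    · rintro (⟨⟨h1, h2⟩, h3⟩ | ⟨⟨h1, h2⟩, h3⟩)
      · exact ⟨⟨h1, by omega⟩, h3⟩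
      · exact ⟨⟨h3.one_lt.le, h2⟩, h3⟩
  have hdisj : Disjoint ((Finset.Icc 1 v).filter Nat.Prime) (F2 v v2) := by
    rw [Finset.disjoint_left]
    intro p hp hp2
    have h1 := (Finset.mem_Icc.1 (Finset.mem_filter.1 hp).1).2
    have h2 := (mem_F2.1 hp2).1.1
    omega
  have h1 : MM v2 = MM v * ∏ p ∈ F2 v v2, (1 - (p : ℝ)⁻¹)⁻¹ := by
    unfold MM
    rw [hsplit, Finset.prod_union hdisj]
  have hne : ∏ p ∈ F2 v v2, (1 - (p : ℝ)⁻¹) ≠ 0 := by
    apply Finset.prod_ne_zero_iff.2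
    intro p hp
    exact (one_sub_inv_pos (mem_F2.1 hp).2).ne'
  have hMM := (MM_pos' v).ne'
  rw [h1, Finset.prod_inv_distrib]
  simp only [one_div]
  field_simp

theorem TP_nonneg (w : ℕ) : 0 ≤ TP w := by
  unfold TP
  apply Finset.prod_nonneg
  intro p hp
  have h3 : 3 ≤ p := (Finset.mem_Icc.1 (Finset.mem_filter.1 hp).1).1
  have h3' : (3 : ℝ) ≤ p := by exact_mod_cast h3
  have : 1 / ((p : ℝ) - 1) ≤ 1 := by
    rw [div_le_one (by linarith)]
    linarith
  linarith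

theorem main (hG : S_GDY) (hPs : S_POSG) (hH : S_HIS) : S_SUP := by
  intro Ω _ P A z θ hGT Y Z y y1 w v v2 J q B hw hwv hvv2 hwz hv2z hyY hZY hJ hq0 hq1 hB hPA
  classical
  have := hGT.prob
  have hdisj : Disjoint (F1 w) (F2 v v2) := by
    rw [Finset.disjoint_left]
    intro p hp hp2
    have h1 := (mem_F1.1 hp).1.2
    have h2 := (mem_F2.1 hp2).1.1
    omega
  have key : ∀ H : Finset ℕ, ∃ (a : ℕ → ℕ) (I : Finset ℕ),
      (((SS y1 v H).filter (fun s => ∀ p ∈ F1 w ∪ F2 v v2, s % p ≠ a p % p)).card : ℝ) ≤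
        (SS y1 v H).card * TP w * (MM v / MM v2) ∧
      I.card = J ∧
      (∀ N ∈ I, Y < N ∧ N ≤ Y + Z ∧ ∀ p : ℕ, p.Prime → p ≤ v2 →
        N % p = (if p ∈ F1 w ∪ F2 v v2 then a p else 0) % p) ∧
      ∀ N ∈ I, ∀ N' ∈ I, N < N' → N + y < N' := by
    intro H
    have hF : ∀ p ∈ F1 w, ∀ s ∈ SS y1 v H, ¬ p ∣ s := by
      intro p hp s hs
      exact (mem_SS.1 hs).2.2 p (mem_F1.1 hp).2 ((mem_F1.1 hp).1.2.trans hwv)
    obtain ⟨a, ha⟩ := hG (SS y1 v H) (F1 w) (F2 v v2)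
      (fun p hp => ⟨(mem_F1.1 hp).2, (mem_F1.1 hp).1.1⟩) (fun p hp => (mem_F2.1 hp).2) hF hdisj
    obtain ⟨I, hI1, hI2, hI3⟩ := hPs v2 Y Z y J
      (fun p => if p ∈ F1 w ∪ F2 v v2 then a p else 0) hJ
    refine ⟨a, I, ?_, hI1, hI2, hI3⟩
    rw [← MM_div hvv2]
    exact ha
  choose a I h1 h2 h3 h4 using key
  refine le_trans (measureReal_mono ?_)
    (hH Ω P A hGT.meas hGT.indep y J ((y1 + B * TP w * (MM v / MM v2)) * q) q
      (fun H => ((SS y1 v H).card : ℝ) ≤ B ∧ ∀ s ∈ H, Rou (z s) s) I hq0 hq1 ?_)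
  · rintro ω ⟨hc, hN⟩
    refine ⟨⟨le_trans ?_ hc, ?_⟩, ?_⟩
    · refine Nat.cast_le.2 (Finset.card_le_card fun s hs => ?_)
      obtain ⟨hs1, hs2, hs3⟩ := mem_SS.1 hs
      rw [Finset.mem_filter] at hs1 ⊢
      obtain ⟨hs4, hs5⟩ := hs1
      rw [Finset.mem_Icc] at hs4
      exact ⟨Finset.mem_Ioc.2 ⟨hs2, hs4.2⟩, hs3, hs5⟩
    · intro s hs
      by_contra hcon
      have := hGT.empty s hcon
      have hs2 := (Finset.mem_filter.1 hs).2
      rw [this] at hs2
      exact hs2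
    · intro N hNI
      obtain ⟨hN1, hN2, hN3⟩ := h3 _ N hNI
      have hev : Even N := by
        have h22 := hN3 2 Nat.prime_two (by omega)
        rw [if_neg] at h22
        · rw [Nat.even_iff]
          simpa using h22
        · rw [Finset.mem_union, mem_F1, mem_F2]
          omega
      obtain ⟨s, hs1, hs2, hs3, hs4⟩ := hN N hN1 hN2 hev
      refine ⟨s, ?_, hs4⟩
      rw [Finset.mem_filter]
      exact ⟨Finset.mem_Icc.2 ⟨hs1, hs2⟩, hs3⟩
  · rintro H hHy ⟨hHB, hHR⟩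
    refine ⟨h2 H, ?_, h4 H⟩
    intro N hN
    obtain ⟨hN1, hN2, hN3⟩ := h3 H N hN
    have hbd : ∀ s ∈ H, P.real (A (N - s)) ≤ q := by
      intro s hs
      have hs2 := (Finset.mem_Icc.1 (hHy hs)).2
      exact hPA _ (by omega) (by omega)
    refine ⟨by omega, hbd, ?_⟩
    -- the exceptional set
    set T : Finset ℕ := (SS y1 v H).filter
      (fun s => ∀ p ∈ F1 w ∪ F2 v v2, s % p ≠ a H p % p) with hT
    have hzero : ∀ s ∈ H, s ∉ Finset.Icc 1 y1 ∪ T → P.real (A (N - s)) = 0 := by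
      intro s hs hsn
      have hs12 := Finset.mem_Icc.1 (hHy hs)
      rw [Finset.mem_union, not_or, Finset.mem_Icc] at hsn
      obtain ⟨hsn1, hsn2⟩ := hsn
      have hsy : y1 < s := by omega
      have hex : ∃ p : ℕ, p.Prime ∧ p ≤ v2 ∧ p ∣ N - s := by
        by_cases hR : Rou v s
        · have hsS : s ∈ SS y1 v H := mem_SS.2 ⟨hs, hsy, hR⟩
          have : ∃ p ∈ F1 w ∪ F2 v v2, s % p = a H p % p := by
            by_contra hcon
            push Not at hcon
            exact hsn2 (Finset.mem_filter.2 ⟨hsS, hcon⟩)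
          obtain ⟨p, hp, hpe⟩ := this
          have hpp : p.Prime ∧ p ≤ v2 := by
            rcases Finset.mem_union.1 hp with hp' | hp'
            · exact ⟨(mem_F1.1 hp').2, by have := (mem_F1.1 hp').1.2; omega⟩
            · exact ⟨(mem_F2.1 hp').2, (mem_F2.1 hp').1.2⟩
          refine ⟨p, hpp.1, hpp.2, ?_⟩
          have hNp := hN3 p hpp.1 hpp.2
          rw [if_pos hp, ← hpe] at hNp
          exact (Nat.modEq_iff_dvd' (by omega)).1 hNp.symm
        · have : ∃ p : ℕ, p.Prime ∧ p ≤ v ∧ p ∣ s := by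
            unfold Pool.Agent.H50.GW.Rou at hR
            push Not at hR
            exact hR
          obtain ⟨p, hp1, hp2, hp3⟩ := this
          have hzs : w ≤ z s := hwz.trans (hGT.mono (by omega))
          have hpw : w < p := by
            by_contra hcon
            exact hHR s hs p hp1 (by omega) hp3
          refine ⟨p, hp1, by omega, ?_⟩
          have hNp := hN3 p hp1 (by omega)
          rw [if_neg] at hNp
          · have : p ∣ N := Nat.dvd_of_mod_eq_zero (by simpa using hNp)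
            exact Nat.dvd_sub this hp3
          · rw [Finset.mem_union, mem_F1, mem_F2]
            omega
      obtain ⟨p, hp1, hp2, hp3⟩ := hex
      have hzN : z (Y - y) ≤ z (N - s) := hGT.mono (by omega)
      have : A (N - s) = ∅ := by
        apply hGT.empty
        intro hR
        exact hR p hp1 (by omega) hp3
      rw [this]
      simp
    have hsum : ∑ s ∈ H, P.real (A (N - s)) ≤ ∑ s ∈ H, (if s ∈ Finset.Icc 1 y1 ∪ T then q else 0) := by
      apply Finset.sum_le_sum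
      intro s hs
      by_cases hsT : s ∈ Finset.Icc 1 y1 ∪ T
      · rw [if_pos hsT]
        exact hbd s hs
      · rw [if_neg hsT, hzero s hs hsT]
    refine hsum.trans ?_
    rw [← Finset.sum_filter, Finset.sum_const, nsmul_eq_mul]
    apply mul_le_mul_of_nonneg_right _ hq0
    have hc1 : (H.filter (fun s => s ∈ Finset.Icc 1 y1 ∪ T)).card ≤ y1 + T.card := by
      calc (H.filter (fun s => s ∈ Finset.Icc 1 y1 ∪ T)).card ≤ (Finset.Icc 1 y1 ∪ T).card := by
            apply Finset.card_le_card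
            intro s hs
            exact (Finset.mem_filter.1 hs).2
        _ ≤ (Finset.Icc 1 y1).card + T.card := Finset.card_union_le _ _
        _ = y1 + T.card := by simp
    have hc2 : ((H.filter (fun s => s ∈ Finset.Icc 1 y1 ∪ T)).card : ℝ) ≤ y1 + (T.card : ℝ) := by
      exact_mod_cast hc1
    have hc3 : (T.card : ℝ) ≤ B * TP w * (MM v / MM v2) := by
      refine (h1 H).trans ?_
      have hTP := TP_nonneg w
      have hMM : 0 ≤ MM v / MM v2 := (div_pos (MM_pos' v) (MM_pos' v2)).le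
      gcongr
    linarith

end Pool.Agent.H95.GG.T.SUP
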