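import Pool.Agent.H95.GG.Stm

/-! # GG-TW: the product for the small primes -/

set_option autoImplicit false

open Filter
open scoped Topology

namespace Pool.Agent.H95.GG.T.TW

/-- the partial products of the twin prime constant -/
noncomputable def G (v : ℕ) : ℝ := ∏ p ∈ (Finset.Icc 3 v).filter Nat.Prime, (1 - 1 / ((p : ℝ) - 1) ^ 2)

lemma filter_succ (v : ℕ) (hv : 2 ≤ v) (hp : (v + 1).Prime) :
    (Finset.Icc 3 (v + 1)).filter Nat.Prime = insert (v + 1) ((Finset.Icc 3 v).filter Nat.Prime) := by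
  ext p
  simp only [Finset.mem_filter, Finset.mem_Icc, Finset.mem_insert]
  constructor
  · rintro ⟨⟨h1, h2⟩, h3⟩
    rcases Nat.lt_or_ge p (v + 1) with h | h
    · exact Or.inr ⟨⟨h1, by omega⟩, h3⟩
    · exact Or.inl (by omega)
  · rintro (h | ⟨⟨h1, h2⟩, h3⟩)
    · subst h
      exact ⟨⟨by omega, le_rfl⟩, hp⟩
    · exact ⟨⟨h1, by omega⟩, h3⟩

lemma filter_succ' (v : ℕ) (hp : ¬ (v + 1).Prime) :
    (Finset.Icc 3 (v + 1)).filter Nat.Prime = (Finset.Icc 3 v).filter Nat.Prime := by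
  ext p
  simp only [Finset.mem_filter, Finset.mem_Icc]
  constructor
  · rintro ⟨⟨h1, h2⟩, h3⟩
    refine ⟨⟨h1, ?_⟩, h3⟩
    by_contra h
    have : p = v + 1 := by omega
    subst this
    exact hp h3
  · rintro ⟨⟨h1, h2⟩, h3⟩
    exact ⟨⟨h1, by omega⟩, h3⟩

lemma not_mem (v : ℕ) : v + 1 ∉ (Finset.Icc 3 v).filter Nat.Prime := by
  simp only [Finset.mem_filter, Finset.mem_Icc]
  omega

lemma fac_nonneg (p : ℕ) (hp : 3 ≤ p) : (0 : ℝ) ≤ 1 - 1 / ((p : ℝ) - 1) ^ 2 := by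
  have h : (3 : ℝ) ≤ p := by exact_mod_cast hp
  have h2 : (1 : ℝ) ≤ ((p : ℝ) - 1) ^ 2 := by nlinarith
  have := (div_le_one (by linarith)).2 h2
  linarith

lemma fac_le (p : ℕ) : 1 - 1 / ((p : ℝ) - 1) ^ 2 ≤ 1 := by
  have : (0 : ℝ) ≤ 1 / ((p : ℝ) - 1) ^ 2 := by positivity
  linarith

lemma G_nonneg (v : ℕ) : 0 ≤ G v := by
  refine Finset.prod_nonneg fun p hp => fac_nonneg p ?_
  simp only [Finset.mem_filter, Finset.mem_Icc] at hp
  exact hp.1.1

lemma G_anti : Antitone G := by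
  intro a b hab
  unfold G
  have hsub : (Finset.Icc 3 a).filter Nat.Prime ⊆ (Finset.Icc 3 b).filter Nat.Prime :=
    Finset.filter_subset_filter _ (Finset.Icc_subset_Icc_right hab)
  rw [← Finset.prod_sdiff hsub]
  have h1 : (∏ p ∈ (Finset.Icc 3 b).filter Nat.Prime \ (Finset.Icc 3 a).filter Nat.Prime,
      (1 - 1 / ((p : ℝ) - 1) ^ 2)) ≤ 1 := by
    refine Finset.prod_le_one (fun p hp => fac_nonneg p ?_) fun p _ => fac_le p
    simp only [Finset.mem_sdiff, Finset.mem_filter, Finset.mem_Icc] at hp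
    exact hp.1.1.1
  exact mul_le_of_le_one_left (G_nonneg a) h1

lemma G_lower (v : ℕ) : ((v : ℝ) + 2) / (2 * ((v : ℝ) + 1)) ≤ G (v + 2) := by
  induction v with
  | zero =>
    have : (Finset.Icc 3 (0 + 2)).filter Nat.Prime = ∅ := by
      ext p
      simp only [Finset.mem_filter, Finset.mem_Icc, Finset.notMem_empty, iff_false]
      omega
    unfold G
    rw [this]
    norm_num
  | succ n ih =>
    have hn : (0 : ℝ) ≤ n := Nat.cast_nonneg n
    have key : (((n + 1 : ℕ) : ℝ) + 2) / (2 * (((n + 1 : ℕ) : ℝ) + 1)) ≤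
        ((n : ℝ) + 2) / (2 * ((n : ℝ) + 1)) * (1 - 1 / (((n + 2 + 1 : ℕ) : ℝ) - 1) ^ 2) := by
      push_cast
      have e : ((n : ℝ) + 2) / (2 * ((n : ℝ) + 1)) * (1 - 1 / ((n : ℝ) + 2 + 1 - 1) ^ 2) =
          ((n : ℝ) + 1 + 2) / (2 * ((n : ℝ) + 1 + 1)) := by
        have h1 : (n : ℝ) + 1 ≠ 0 := by positivity
        have h2 : (n : ℝ) + 2 ≠ 0 := by positivity
        have h3 : (n : ℝ) + 2 + 1 - 1 = n + 2 := by ring
        have h4 : (n : ℝ) + 1 + 1 = n + 2 := by ring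
        rw [h3, h4]
        field_simp
        ring
      rw [e]
    have hfac : (0 : ℝ) ≤ 1 - 1 / (((n + 2 + 1 : ℕ) : ℝ) - 1) ^ 2 := fac_nonneg (n + 2 + 1) (by omega)
    have hG : G (n + 2) * (1 - 1 / (((n + 2 + 1 : ℕ) : ℝ) - 1) ^ 2) ≤ G (n + 2 + 1) := by
      by_cases hp : (n + 2 + 1).Prime
      · unfold G
        rw [filter_succ (n + 2) (by omega) hp, Finset.prod_insert (not_mem _), mul_comm]
      · have : G (n + 2 + 1) = G (n + 2) := by
          unfold G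
          rw [filter_succ' (n + 2) hp]
        rw [this]
        exact mul_le_of_le_one_right (G_nonneg _) (fac_le _)
    calc (((n + 1 : ℕ) : ℝ) + 2) / (2 * (((n + 1 : ℕ) : ℝ) + 1)) ≤ _ := key
      _ ≤ G (n + 2) * (1 - 1 / (((n + 2 + 1 : ℕ) : ℝ) - 1) ^ 2) := mul_le_mul_of_nonneg_right ih hfac
      _ ≤ G (n + 2 + 1) := hG
      _ = G (n + 1 + 2) := rfl

lemma G_half (v : ℕ) : 1 / 2 ≤ G v := by
  have h1 : G (v + 2) ≤ G v := G_anti (by omega)
  refine le_trans ?_ ((G_lower v).trans h1)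
  rw [div_le_div_iff₀ (by norm_num) (by positivity)]
  linarith [show (0 : ℝ) ≤ v from Nat.cast_nonneg v]

lemma prod_eq (w : ℕ) (hw : 2 ≤ w) :
    (∏ p ∈ (Finset.Icc 3 w).filter Nat.Prime, (1 - 1 / ((p : ℝ) - 1))) *
      (∏ p ∈ (Finset.Icc 1 w).filter Nat.Prime, (1 - (p : ℝ)⁻¹)⁻¹) = 2 * G w := by
  have hset : (Finset.Icc 1 w).filter Nat.Prime = insert 2 ((Finset.Icc 3 w).filter Nat.Prime) := by
    ext p
    simp only [Finset.mem_filter, Finset.mem_Icc, Finset.mem_insert]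
    constructor
    · rintro ⟨⟨_, h2⟩, h3⟩
      have := h3.two_le
      rcases Nat.lt_or_ge 2 p with h | h
      · exact Or.inr ⟨⟨by omega, h2⟩, h3⟩
      · exact Or.inl (by omega)
    · rintro (h | ⟨⟨h1, h2⟩, h3⟩)
      · subst h
        exact ⟨⟨by omega, hw⟩, Nat.prime_two⟩
      · exact ⟨⟨by omega, h2⟩, h3⟩
  have h2 : (2 : ℕ) ∉ (Finset.Icc 3 w).filter Nat.Prime := by
    simp only [Finset.mem_filter, Finset.mem_Icc]
    omega
  rw [hset, Finset.prod_insert h2, mul_left_comm, ← Finset.prod_mul_distrib]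
  have h3 : (1 - ((2 : ℕ) : ℝ)⁻¹)⁻¹ = 2 := by norm_num
  rw [h3]
  congr 1
  unfold G
  refine Finset.prod_congr rfl fun p hp => ?_
  simp only [Finset.mem_filter, Finset.mem_Icc] at hp
  have hp3 : (3 : ℝ) ≤ p := by exact_mod_cast hp.1.1
  have h4 : (p : ℝ) ≠ 0 := by linarith
  have h5 : (p : ℝ) - 1 ≠ 0 := by linarith
  have h6 : (1 - (p : ℝ)⁻¹)⁻¹ = (p : ℝ) / ((p : ℝ) - 1) := by
    rw [show (1 : ℝ) - (p : ℝ)⁻¹ = ((p : ℝ) - 1) / p by field_simp, inv_div]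
  rw [h6]
  field_simp
  ring

lemma bdd : BddBelow (Set.range G) := ⟨0, by rintro _ ⟨v, rfl⟩; exact G_nonneg v⟩

lemma G_tendsto : Tendsto G atTop (𝓝 (⨅ v, G v)) := tendsto_atTop_ciInf G_anti bdd

lemma iInf_pos : 0 < ⨅ v, G v := lt_of_lt_of_le (by norm_num) (le_ciInf G_half)

theorem main : S_TW := by
  have hC : C2 = ⨅ v, G v := rfl
  refine ⟨?_, ?_⟩
  · rw [hC]
    refine (G_tendsto.const_mul 2).congr' ?_
    filter_upwards [eventually_ge_atTop 2] with w hw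
    exact (prod_eq w hw).symm
  · rw [hC]
    exact iInf_pos

end Pool.Agent.H95.GG.T.TW
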