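import Pool.Agent.H95.GG.Stm
set_option autoImplicit false

/-!
# GG-YY (helper73)
-/

open Filter
open scoped Topology

namespace Pool.Agent.H95.GG.T.YY

lemma hL : Tendsto (fun Y : ℕ => Real.log Y) atTop atTop :=
  Real.tendsto_log_atTop.comp tendsto_natCast_atTop_atTop

lemma hLL : Tendsto (fun Y : ℕ => Real.log (Real.log Y)) atTop atTop :=
  Real.tendsto_log_atTop.comp hL

lemma hLLL : Tendsto (fun Y : ℕ => Real.log (Real.log (Real.log Y))) atTop atTop :=
  Real.tendsto_log_atTop.comp hLL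

/-- `log f / g → a`, `g → ∞`: `log log f / log g → 1` -/
lemma ll {f g : ℕ → ℝ} {a : ℝ} (ha : 0 < a) (hg : Tendsto g atTop atTop)
    (h : Tendsto (fun Y => f Y / g Y) atTop (𝓝 a)) :
    Tendsto (fun Y => Real.log (f Y) / Real.log (g Y)) atTop (𝓝 1) := by
  have h1 : Tendsto (fun Y => Real.log (f Y / g Y)) atTop (𝓝 (Real.log a)) :=
    (Real.continuousAt_log ha.ne').tendsto.comp h
  have h2 : Tendsto (fun Y => Real.log (f Y / g Y) / Real.log (g Y)) atTop (𝓝 0) :=
    h1.div_atTop (Real.tendsto_log_atTop.comp hg)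
  have h3 : Tendsto (fun Y => 1 + Real.log (f Y / g Y) / Real.log (g Y)) atTop (𝓝 1) := by
    simpa using h2.const_add 1
  refine h3.congr' ?_
  filter_upwards [hg.eventually_ge_atTop 2, h.eventually (lt_mem_nhds ha)] with Y h4 h5
  have h6 : 0 < g Y := by linarith
  have h7 : 0 < f Y := by
    have := mul_pos h5 h6
    rwa [div_mul_cancel₀ _ h6.ne'] at this
  have h8 : 0 < Real.log (g Y) := Real.log_pos (by linarith)
  rw [Real.log_div h7.ne' h6.ne']
  field_simp
  ring

lemma floor_ratio {f : ℕ → ℝ} (hf : Tendsto f atTop atTop) :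
    Tendsto (fun Y => (⌊f Y⌋₊ : ℝ) / f Y) atTop (𝓝 1) :=
  (tendsto_nat_floor_div_atTop (R := ℝ)).comp hf

theorem main : S_YY := by
  intro κ hκ
  -- `log (2 Y) / log Y → 1`
  have r1 : Tendsto (fun Y : ℕ => Real.log (2 * (Y : ℝ)) / Real.log Y) atTop (𝓝 1) := by
    have h2 : Tendsto (fun Y : ℕ => Real.log 2 / Real.log Y) atTop (𝓝 0) :=
      tendsto_const_nhds.div_atTop hL
    have h3 : Tendsto (fun Y : ℕ => 1 + Real.log 2 / Real.log Y) atTop (𝓝 1) := by
      simpa using h2.const_add 1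
    refine h3.congr' ?_
    filter_upwards [hL.eventually_ge_atTop 1, eventually_ge_atTop 1] with Y h4 h5
    have h6 : (Y : ℝ) ≠ 0 := by
      have : (1 : ℝ) ≤ Y := by exact_mod_cast h5
      linarith
    rw [Real.log_mul (by norm_num) h6]
    field_simp
    ring
  have r2 := ll one_pos hL r1
  -- `g / (L² log L) → κ`
  have r3 : Tendsto (fun Y : ℕ => κ * (Real.log (2 * (Y : ℝ)) ^ 2 * Real.log (Real.log (2 * (Y : ℝ)))) /
      (Real.log Y ^ 2 * Real.log (Real.log Y))) atTop (𝓝 κ) := by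
    have h1 := (r1.pow 2).mul r2
    have h2 := h1.const_mul κ
    rw [one_pow, one_mul, mul_one] at h2
    refine h2.congr' ?_
    filter_upwards [hL.eventually_ge_atTop 1, hLL.eventually_ge_atTop 1] with Y h4 h5
    have h6 : Real.log Y ≠ 0 := by linarith
    have h7 : Real.log (Real.log Y) ≠ 0 := by linarith
    field_simp
  have hden : Tendsto (fun Y : ℕ => Real.log Y ^ 2 * Real.log (Real.log Y)) atTop atTop :=
    (((tendsto_pow_atTop (n := 2) (by norm_num)).comp hL)).atTop_mul_atTop₀ hLL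
  have hg : Tendsto (fun Y : ℕ => κ * (Real.log (2 * (Y : ℝ)) ^ 2 * Real.log (Real.log (2 * (Y : ℝ)))))
      atTop atTop := by
    have h1 := hden.atTop_mul_pos hκ r3
    refine h1.congr' ?_
    filter_upwards [hden.eventually_ge_atTop 1] with Y h4
    have h6 : Real.log Y ^ 2 * Real.log (Real.log Y) ≠ 0 := by linarith
    rw [mul_div_cancel₀ _ h6]
  have hyy : Tendsto (yy κ) atTop atTop := tendsto_nat_floor_atTop.comp hg
  have r4 : Tendsto (fun Y : ℕ => (yy κ Y : ℝ) / (Real.log Y ^ 2 * Real.log (Real.log Y))) atTop (𝓝 κ) := by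
    have h1 := (floor_ratio hg).mul r3
    rw [one_mul] at h1
    refine h1.congr' ?_
    filter_upwards [hg.eventually_ge_atTop 1] with Y h4
    unfold yy
    have h5 : κ * (Real.log (2 * (Y : ℝ)) ^ 2 * Real.log (Real.log (2 * (Y : ℝ)))) ≠ 0 := by linarith
    rw [div_mul_div_cancel₀ h5]
  have r5 : Tendsto (fun Y : ℕ => Real.log (yy κ Y) / Real.log (Real.log Y)) atTop (𝓝 2) := by
    have h1 : Tendsto (fun Y : ℕ => Real.log ((yy κ Y : ℝ) / (Real.log Y ^ 2 * Real.log (Real.log Y)))) atTop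
        (𝓝 (Real.log κ)) := (Real.continuousAt_log hκ.ne').tendsto.comp r4
    have h2 := h1.div_atTop hLL
    have h3 : Tendsto (fun Y : ℕ => Real.log (Real.log (Real.log Y)) / Real.log (Real.log Y)) atTop (𝓝 0) := by
      have h5 : Tendsto (fun x : ℝ => Real.log x / x) atTop (𝓝 0) := by
        have := Real.isLittleO_log_id_atTop
        simpa using this.tendsto_div_nhds_zero
      exact h5.comp hLL
    have h4 : Tendsto (fun Y : ℕ => Real.log ((yy κ Y : ℝ) / (Real.log Y ^ 2 * Real.log (Real.log Y))) /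
        Real.log (Real.log Y) + 2 + Real.log (Real.log (Real.log Y)) / Real.log (Real.log Y)) atTop (𝓝 2) := by
      simpa using (h2.add_const 2).add h3
    refine h4.congr' ?_
    filter_upwards [hL.eventually_ge_atTop 1, hLL.eventually_ge_atTop 1,
      hyy.eventually_ge_atTop 1] with Y a1 a2 a3
    have b1 : Real.log Y ≠ 0 := by linarith
    have b2 : Real.log (Real.log Y) ≠ 0 := by linarith
    have b3 : (yy κ Y : ℝ) ≠ 0 := by
      have : (1 : ℝ) ≤ yy κ Y := by exact_mod_cast a3
      linarith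
    rw [Real.log_div b3 (mul_ne_zero (pow_ne_zero 2 b1) b2), Real.log_mul (pow_ne_zero 2 b1) b2, Real.log_pow]
    field_simp
    push_cast
    ring
  refine ⟨hyy, r4, r5, ll two_pos hLL r5, ?_, ?_⟩
  · intro c hc
    have h1 : Tendsto (fun x : ℝ => Real.log x / x ^ c) atTop (𝓝 0) :=
      (isLittleO_log_rpow_atTop hc).tendsto_div_nhds_zero
    have h2 := h1.comp hL
    filter_upwards [hL.eventually_ge_atTop 1, hLL.eventually_ge_atTop 1,
      hLL.eventually_ge_atTop (2 / κ), r4.eventually (gt_mem_nhds (lt_add_one κ)),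
      r4.eventually (lt_mem_nhds (half_lt_self hκ)),
      h2.eventually (gt_mem_nhds (by positivity : (0 : ℝ) < 1 / (κ + 1)))] with Y a1 a2 a3 a4 a5 a6
    have b1 : 0 < Real.log Y := by linarith
    have b2 : 0 < Real.log (Real.log Y) := by linarith
    have b3 : 0 < Real.log Y ^ 2 * Real.log (Real.log Y) := by positivity
    rw [div_lt_iff₀ b3] at a4
    rw [lt_div_iff₀ b3] at a5
    have b4 : 0 < Real.log Y ^ c := Real.rpow_pos_of_pos b1 c
    simp only [Function.comp_apply] at a6
    rw [div_lt_div_iff₀ b4 (by linarith), one_mul] at a6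
    constructor
    · rw [Real.rpow_add b1]
      have b5 : Real.log Y ^ (2 : ℝ) = Real.log Y ^ 2 := Real.rpow_natCast _ 2
      rw [b5]
      have b6 : Real.log Y ^ 2 * (Real.log (Real.log Y) * (κ + 1)) ≤ Real.log Y ^ 2 * Real.log Y ^ c :=
        mul_le_mul_of_nonneg_left a6.le (by positivity)
      nlinarith
    · rw [div_le_iff₀ hκ] at a3
      have b6 : Real.log Y ^ 2 * 2 ≤ Real.log Y ^ 2 * (Real.log (Real.log Y) * κ) :=
        mul_le_mul_of_nonneg_left a3 (by positivity)
      nlinarith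
  · intro c hc _
    have h1 : Tendsto (fun Y : ℕ => Real.log Y ^ c) atTop atTop := (tendsto_rpow_atTop hc).comp hL
    have h2 : Tendsto (fun Y : ℕ => ⌊Real.log Y ^ c⌋₊) atTop atTop := tendsto_nat_floor_atTop.comp h1
    have h3 : Tendsto (fun Y : ℕ => Real.log ⌊Real.log Y ^ c⌋₊ / Real.log (Real.log Y)) atTop (𝓝 c) := by
      have h4 := (ll one_pos h1 (floor_ratio h1)).const_mul c
      rw [mul_one] at h4
      refine h4.congr' ?_
      filter_upwards [hL.eventually_ge_atTop 1, hLL.eventually_ge_atTop 1] with Y a1 a2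
      have b1 : 0 < Real.log Y := by linarith
      have b2 : Real.log (Real.log Y) ≠ 0 := by linarith
      rw [Real.log_rpow b1]
      field_simp
    exact ⟨h2, h3, ll hc hLL h3⟩

end Pool.Agent.H95.GG.T.YY
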